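import Mathlib

/-!
# Windows of trigonometric sums, averaging over periods
-/

namespace Pool.Agent.Lib.MP_85199e_an

open Finset Real

/-- `exp (i x)` -/
noncomputable def ex (x : ℝ) : ℂ := Complex.exp (x * Complex.I)

theorem ex_add (x y : ℝ) : ex (x + y) = ex x * ex y := by
  unfold ex; rw [← Complex.exp_add]; congr 1; push_cast; ring

theorem ex_zero : ex 0 = 1 := by simp [ex]

theorem norm_ex (x : ℝ) : ‖ex x‖ = 1 := Complex.norm_exp_ofReal_mul_I x

theorem ex_re (x : ℝ) : (ex x).re = cos x := Complex.exp_ofReal_mul_I_re x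

theorem ex_im (x : ℝ) : (ex x).im = sin x := Complex.exp_ofReal_mul_I_im x

theorem ex_int (k : ℤ) : ex (k * (2 * π)) = 1 := by
  unfold ex
  rw [← Complex.exp_int_mul_two_pi_mul_I k]; congr 1; push_cast; ring

theorem ex_nat (k : ℕ) : ex (k * (2 * π)) = 1 := by
  have := ex_int k
  rwa [Int.cast_natCast] at this

theorem conj_ex (x : ℝ) : (starRingEnd ℂ) (ex x) = ex (-x) := by
  unfold ex; rw [← Complex.exp_conj]; congr 1; simp

@[fun_prop] theorem continuous_ex : Continuous ex := by unfold ex; fun_prop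

/-- the window `a ≤ n < b` of the series with coefficients `c` -/
noncomputable def W (c : ℕ → ℂ) (a b : ℕ) (x : ℝ) : ℂ := ∑ n ∈ Ico a b, c n * ex (n * x)

@[fun_prop] theorem continuous_W (c : ℕ → ℂ) (a b : ℕ) : Continuous (W c a b) := by
  unfold W; fun_prop

theorem W_periodic (c : ℕ → ℂ) (a b : ℕ) : Function.Periodic (W c a b) (2 * π) := fun x => by
  unfold W
  refine sum_congr rfl fun n _ => ?_
  rw [mul_add, ex_add, ex_nat, mul_one]

theorem W_congr {c c' : ℕ → ℂ} {a b : ℕ} (h : ∀ n, a ≤ n → n < b → c n = c' n) (x : ℝ) :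
    W c a b x = W c' a b x :=
  sum_congr rfl fun n hn => by rw [h n (mem_Ico.1 hn).1 (mem_Ico.1 hn).2]

theorem W_add (c : ℕ → ℂ) {a m b : ℕ} (h1 : a ≤ m) (h2 : m ≤ b) (x : ℝ) :
    W c a b x = W c a m x + W c m b x := (sum_Ico_consecutive _ h1 h2).symm

/-- the integral of the modulus of a window over a period -/
noncomputable def L1 (c : ℕ → ℂ) (a b : ℕ) : ℝ := ∫ x in (0:ℝ)..2 * π, ‖W c a b x‖

theorem L1_nonneg (c : ℕ → ℂ) (a b : ℕ) : 0 ≤ L1 c a b :=
  intervalIntegral.integral_nonneg (by positivity) fun _ _ => norm_nonneg _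

/-- in every direction some window inside `[lo, hi)` is large at `x` -/
def Win (c : ℕ → ℂ) (lo hi : ℕ) (A x : ℝ) : Prop :=
  ∀ w : ℂ, ‖w‖ = 1 → ∃ a b, lo ≤ a ∧ a ≤ b ∧ b ≤ hi ∧ A ≤ |(w * W c a b x).re|

theorem Win.mono {c c' : ℕ → ℂ} {lo hi lo' hi' : ℕ} {A x : ℝ} (h : Win c lo hi A x)
    (h1 : lo' ≤ lo) (h2 : hi ≤ hi') (e : ∀ n, lo ≤ n → n < hi → c' n = c n) :
    Win c' lo' hi' A x := fun w hw => by
  obtain ⟨a, b, ha, hab, hb, H⟩ := h w hw
  refine ⟨a, b, h1.trans ha, hab, hb.trans h2, ?_⟩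
  rwa [W_congr (c' := c) fun n h3 h4 => e n (ha.trans h3) (h4.trans_le hb)]

theorem per_shift {h : ℝ → ℝ} (hp : Function.Periodic h (2 * π)) (t : ℝ) :
    ∫ x in (0:ℝ)..2 * π, h (x + t) = ∫ x in (0:ℝ)..2 * π, h x := by
  rw [intervalIntegral.integral_comp_add_right, zero_add, add_comm (2 * π) t,
    hp.intervalIntegral_add_eq t 0, zero_add]

theorem per_dil {h : ℝ → ℝ} (hc : Continuous h) (hp : Function.Periodic h (2 * π)) {L : ℕ}
    (hL : 0 < L) : ∫ x in (0:ℝ)..2 * π, h (L * x) = ∫ x in (0:ℝ)..2 * π, h x := by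
  have hL' : (L : ℝ) ≠ 0 := by positivity
  have := hp.intervalIntegral_add_zsmul_eq (L : ℤ) 0 fun a b => hc.intervalIntegrable a b
  rw [zero_add, zero_add, zsmul_eq_mul, zsmul_eq_mul, Int.cast_natCast] at this
  rw [intervalIntegral.integral_comp_mul_left _ hL', mul_zero, this, smul_eq_mul]
  field_simp

theorem avg {g h : ℝ → ℝ} (gc : Continuous g) (gp : Function.Periodic g (2 * π))
    (hc : Continuous h) (hp : Function.Periodic h (2 * π)) (h0 : ∀ x, 0 ≤ h x) {L : ℕ}
    (hL : 0 < L) {m : ℝ} (hm : ∀ x, ∑ r ∈ range L, g (x + r * (2 * π / L)) ≤ L * m) :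
    ∫ x in (0:ℝ)..2 * π, g x * h (L * x) ≤ m * ∫ x in (0:ℝ)..2 * π, h x := by
  have hL' : (0 : ℝ) < L := by positivity
  have hq : Function.Periodic (fun x => g x * h (L * x)) (2 * π) := fun x => by
    simp only [gp x, mul_add]
    rw [hp.nat_mul L]
  have e1 : ∀ r : ℕ, ∫ x in (0:ℝ)..2 * π, g (x + r * (2 * π / L)) * h (L * x)
      = ∫ x in (0:ℝ)..2 * π, g x * h (L * x) := fun r => by
    rw [← per_shift hq (r * (2 * π / L))]
    refine intervalIntegral.integral_congr fun x _ => ?_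
    have : (L : ℝ) * (x + r * (2 * π / L)) = L * x + r * (2 * π) := by field_simp
    simp only [this]
    rw [hp.nat_mul r]
  have e2 : (L : ℝ) * ∫ x in (0:ℝ)..2 * π, g x * h (L * x)
      = ∫ x in (0:ℝ)..2 * π, (∑ r ∈ range L, g (x + r * (2 * π / L))) * h (L * x) := by
    simp only [sum_mul]
    rw [intervalIntegral.integral_finsetSum fun r _ => Continuous.intervalIntegrable
      (by fun_prop) _ _]
    simp only [e1, sum_const, card_range, nsmul_eq_mul]
  have e3 : ∫ x in (0:ℝ)..2 * π, (∑ r ∈ range L, g (x + r * (2 * π / L))) * h (L * x)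
      ≤ ∫ x in (0:ℝ)..2 * π, (L * m) * h (L * x) :=
    intervalIntegral.integral_mono_on (by positivity)
      (Continuous.intervalIntegrable (by fun_prop) _ _)
      (Continuous.intervalIntegrable (by fun_prop) _ _)
      fun x _ => mul_le_mul_of_nonneg_right (hm x) (h0 _)
  rw [intervalIntegral.integral_const_mul, per_dil hc hp hL, ← e2, mul_assoc] at e3
  exact le_of_mul_le_mul_left e3 hL'

/-- Dirichlet sum -/
noncomputable def D (N : ℕ) (x : ℝ) : ℂ := ∑ k ∈ range N, ex (k * x)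

@[fun_prop] theorem continuous_D (N : ℕ) : Continuous (D N) := by unfold D; fun_prop

theorem D_periodic (N : ℕ) : Function.Periodic (D N) (2 * π) := fun x => by
  unfold D
  refine sum_congr rfl fun n _ => ?_
  rw [mul_add, ex_add, ex_nat, mul_one]

theorem ex_tel (u : ℝ) (n : ℕ) : (ex u - 1) * D n u = ex (n * u) - 1 := by
  induction n with
  | zero => simp [D, ex_zero]
  | succ n ih =>
    unfold D at ih ⊢
    rw [sum_range_succ, mul_add, ih]
    push_cast
    rw [add_mul, one_mul, ex_add]; ring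

theorem root_sum {L : ℕ} {m : ℤ} (h0 : m ≠ 0) (h1 : |m| < L) : D L (m * (2 * π / L)) = 0 := by
  have hL : (0 : ℝ) < L := by
    have : (0 : ℤ) < L := (abs_nonneg m).trans_lt h1
    exact_mod_cast this
  have h := ex_tel (m * (2 * π / L)) L
  have e : (L : ℝ) * (m * (2 * π / L)) = m * (2 * π) := by field_simp
  rw [e, ex_int, sub_self] at h
  refine (mul_eq_zero.1 h).resolve_left fun h2 => ?_
  obtain ⟨k, hk⟩ := Complex.exp_eq_one_iff.1 (sub_eq_zero.1 h2)
  have h3 : (m : ℝ) * (2 * π / L) = k * (2 * π) := by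
    have := congrArg Complex.im hk
    simpa using this
  have h4 : (m : ℝ) = k * L := by
    have hp := pi_pos
    field_simp at h3
    linarith
  have h5 : m = k * L := by exact_mod_cast h4
  have hk0 : k ≠ 0 := by rintro rfl; simp at h5; exact h0 h5
  have : (L : ℤ) ≤ |m| := by
    rw [h5, abs_mul, Nat.abs_cast]
    exact le_mul_of_one_le_left (by positivity) (Int.one_le_abs hk0)
  omega

theorem parseval {N L : ℕ} (h : N ≤ L) (y : ℝ) :
    ∑ r ∈ range L, ‖D N (y + r * (2 * π / L))‖ ^ 2 = L * N := by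
  have e : ∀ z : ℝ, ((‖D N z‖ ^ 2 : ℝ) : ℂ)
      = ∑ k ∈ range N, ∑ l ∈ range N, ex ((((k : ℤ) - l : ℤ) : ℝ) * z) := fun z => by
    rw [← Complex.normSq_eq_norm_sq, ← Complex.mul_conj]
    unfold D
    rw [map_sum, sum_mul_sum]
    refine sum_congr rfl fun k _ => sum_congr rfl fun l _ => ?_
    rw [conj_ex, ← ex_add]; congr 1; push_cast; ring
  have : ((∑ r ∈ range L, ‖D N (y + r * (2 * π / L))‖ ^ 2 : ℝ) : ℂ) = ((L * N : ℝ) : ℂ) := by
    rw [Complex.ofReal_sum]
    simp only [e]
    rw [sum_comm]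
    have : ∀ k ∈ range N, ∑ r ∈ range L, ∑ l ∈ range N,
        ex ((((k : ℤ) - l : ℤ) : ℝ) * (y + r * (2 * π / L))) = L := fun k hk => by
      rw [sum_comm, sum_eq_single k]
      · simp [ex_zero]
      · intro l hl hne
        have hk' := mem_range.1 hk
        have hl' := mem_range.1 hl
        have := root_sum (L := L) (m := (k : ℤ) - l) (by omega) (by rw [abs_lt]; omega)
        unfold D at this
        calc _ = ex ((((k : ℤ) - l : ℤ) : ℝ) * y) * ∑ r ∈ range L,
              ex (r * ((((k : ℤ) - l : ℤ) : ℝ) * (2 * π / L))) := by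
              rw [mul_sum]
              refine sum_congr rfl fun r _ => ?_
              rw [← ex_add]; congr 1; ring
          _ = 0 := by rw [this, mul_zero]
      · intro h; exact absurd hk h
    rw [sum_congr rfl this]
    simp [mul_comm]
  exact_mod_cast this

theorem int_D (N : ℕ) (t : ℝ) : ∫ x in (0:ℝ)..2 * π, ‖D N (x - t)‖ ^ 2 ≤ N * (2 * π) := by
  have := avg (g := fun x => ‖D N (x - t)‖ ^ 2) (h := fun _ => 1) (by fun_prop)
    (fun x => by simp only [show x + 2 * π - t = x - t + 2 * π by ring, D_periodic N _])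
    continuous_const (fun _ => rfl) (fun _ => zero_le_one) (L := N + 1) (by omega) (m := N)
    fun x => by
      have := parseval (Nat.le_succ N) (x - t)
      simp only [show ∀ s : ℝ, x + s - t = x - t + s from fun s => by ring]
      exact this.le
  simpa using this

end Pool.Agent.Lib.MP_85199e_an
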