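import Pool.Agent.Lib.MP_85199e_an.Loc

/-!
# A Kolmogorov polynomial with exact windows
-/

namespace Pool.Agent.Lib.MP_85199e_an

open Finset Real

theorem two_dir (v z : ℂ) (hz : ‖z‖ = 1) :
    ‖v‖ * |z.im| ≤ 2 * |v.re| + |(v * z).re| := by
  have h1 := Complex.norm_le_abs_re_add_abs_im v
  have h2 : |z.im| ≤ 1 := hz ▸ Complex.abs_im_le_norm z
  have h3 : |z.re| ≤ 1 := hz ▸ Complex.abs_re_le_norm z
  have h4 : |v.im| * |z.im| ≤ |v.re| * |z.re| + |(v * z).re| := by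
    rw [← abs_mul, ← abs_mul, Complex.mul_re]
    have : v.im * z.im = v.re * z.re - (v.re * z.re - v.im * z.im) := by ring
    rw [this]
    simpa using abs_sub (v.re * z.re) (v.re * z.re - v.im * z.im)
  have h5 := mul_le_mul_of_nonneg_right h1 (abs_nonneg z.im)
  nlinarith [abs_nonneg v.re, abs_nonneg z.im, abs_nonneg z.re]

theorem W_sum {ι : Type*} (s : Finset ι) (c : ι → ℕ → ℂ) (a b : ℕ) (x : ℝ) :
    W (fun n => ∑ i ∈ s, c i n) a b x = ∑ i ∈ s, W (c i) a b x := by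
  unfold W; simp only [sum_mul]; exact sum_comm

theorem L1_sum {ι : Type*} (s : Finset ι) (c : ι → ℕ → ℂ) (a b : ℕ) :
    L1 (fun n => ∑ i ∈ s, c i n) a b ≤ ∑ i ∈ s, L1 (c i) a b := by
  unfold L1
  rw [← intervalIntegral.integral_finsetSum fun r _ => Continuous.intervalIntegrable
      (by fun_prop) _ _]
  refine intervalIntegral.integral_mono_on (by positivity)
    (Continuous.intervalIntegrable (by fun_prop) _ _)
    (Continuous.intervalIntegrable (by fun_prop) _ _) fun x _ => ?_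
  rw [W_sum]; exact norm_sum_le _ _

theorem L1_tr {o M H : ℕ} (h : o + M + 2 * M ≤ H) : L1 (tr o M (2 * M)) 0 H ≤ 3 * π * M := by
  have h1 := int_D M 0
  have h2 := int_D (2 * M) 0
  simp only [sub_zero] at h1 h2
  have h3 : L1 (tr o M (2 * M)) 0 H ≤ ∫ x in (0:ℝ)..2 * π,
      (1 / 2 : ℝ) * (‖D M x‖ ^ 2 + ‖D (2 * M) x‖ ^ 2) := by
    refine intervalIntegral.integral_mono_on (by positivity)
      (Continuous.intervalIntegrable (by fun_prop) _ _)
      (Continuous.intervalIntegrable (by fun_prop) _ _) fun x _ => ?_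
    rw [W_tr h, norm_mul, norm_mul, norm_ex, one_mul]
    nlinarith [sq_nonneg (‖D M x‖ - ‖D (2 * M) x‖)]
  rw [intervalIntegral.integral_const_mul, intervalIntegral.integral_add
    (Continuous.intervalIntegrable (by fun_prop) _ _)
    (Continuous.intervalIntegrable (by fun_prop) _ _)] at h3
  push_cast at h2
  linarith

theorem im_inv {θ : ℝ} (h0 : 0 < θ) (h1 : θ ≤ π / 2) :
    ex (-θ) - 1 ≠ 0 ∧ 2 / (π * θ) ≤ ((ex (-θ) - 1)⁻¹).im := by
  have hp := pi_pos
  have h2 : 2 / π * θ ≤ sin θ := mul_le_sin h0.le h1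
  have h3 : 0 < sin θ := lt_of_lt_of_le (by positivity) h2
  have hi : (ex (-θ) - 1).im = -sin θ := by simp [ex_im]
  have hne : ex (-θ) - 1 ≠ 0 := fun h => by rw [h] at hi; simp at hi; linarith
  refine ⟨hne, ?_⟩
  have hq : Complex.normSq (ex (-θ) - 1) ≤ θ ^ 2 := by
    rw [Complex.normSq_apply, hi]
    simp only [Complex.sub_re, ex_re, cos_neg, Complex.one_re]
    nlinarith [sin_sq_add_cos_sq θ, one_sub_sq_div_two_le_cos (x := θ)]
  rw [Complex.inv_im, hi, neg_neg]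
  calc 2 / (π * θ) = (2 / π * θ) / θ ^ 2 := by field_simp
    _ ≤ _ := div_le_div₀ h3.le h2 (Complex.normSq_pos.2 hne) hq

/-- the `i`-th kernel -/
noncomputable def ker (p i : ℕ) : ℕ → ℂ :=
  rot (fun m => ((1 / ((8 * p * 4 ^ i : ℕ) : ℝ) : ℝ) : ℂ) *
    tr (8 * p * 4 ^ (2 * p) - 8 * p * 4 ^ i) (8 * p * 4 ^ i) (2 * (8 * p * 4 ^ i)) m)
    (i * (2 * π / (8 * p : ℕ)))

/-- the polynomial -/
noncomputable def kol (p m : ℕ) : ℂ :=
  ((1 / ((8 * p : ℕ) : ℝ) : ℝ) : ℂ) * ∑ i ∈ Ioc 0 (2 * p), ker p i m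

theorem pw_le {p i j : ℕ} (h : i ≤ j) : 8 * p * 4 ^ i ≤ 8 * p * 4 ^ j :=
  Nat.mul_le_mul_left _ (Nat.pow_le_pow_right (by norm_num) h)

theorem norm_kol {p : ℕ} (hp : 0 < p) (m : ℕ) : ‖kol p m‖ ≤ 1 := by
  have hp' : (0 : ℝ) < p := by positivity
  have h : ∀ i, ‖ker p i m‖ ≤ 1 := fun i => by
    unfold ker
    rw [norm_rot, norm_mul, Complex.norm_real, Real.norm_of_nonneg (by positivity)]
    refine (mul_le_mul_of_nonneg_left (norm_tr _ _ _ _) (by positivity)).trans (le_of_eq ?_)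
    exact one_div_mul_cancel (by positivity)
  have h2 : ‖∑ i ∈ Ioc 0 (2 * p), ker p i m‖ ≤ 2 * p :=
    (norm_sum_le _ _).trans ((sum_le_card_nsmul _ _ 1 fun i _ => h i).trans (by simp))
  unfold kol
  rw [norm_mul, Complex.norm_real, Real.norm_of_nonneg (by positivity)]
  refine (mul_le_mul_of_nonneg_left h2 (by positivity)).trans ?_
  push_cast
  rw [one_div_mul_eq_div, div_le_one (by positivity)]
  linarith

theorem L1_kol {p : ℕ} (hp : 0 < p) : L1 (kol p) 0 (3 * (8 * p * 4 ^ (2 * p))) ≤ 3 := by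
  have hp' : (0 : ℝ) < p := by positivity
  have h : ∀ i ∈ Ioc 0 (2 * p), L1 (ker p i) 0 (3 * (8 * p * 4 ^ (2 * p))) ≤ 3 * π := by
    intro i hi
    have := pw_le (p := p) (mem_Ioc.1 hi).2
    unfold ker
    rw [L1_rot, L1_smul, Complex.norm_real, Real.norm_of_nonneg (by positivity)]
    refine (mul_le_mul_of_nonneg_left (L1_tr (by omega)) (by positivity)).trans (le_of_eq ?_)
    have : (0 : ℝ) < ((8 * p * 4 ^ i : ℕ) : ℝ) := by positivity
    field_simp
  have h2 := (L1_sum _ _ _ _).trans (sum_le_card_nsmul _ _ _ h)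
  unfold kol
  rw [L1_smul, Complex.norm_real, Real.norm_of_nonneg (by positivity)]
  refine (mul_le_mul_of_nonneg_left h2 (by positivity)).trans ?_
  simp only [Nat.card_Ioc, Nat.sub_zero, nsmul_eq_mul]
  push_cast
  rw [one_div_mul_eq_div, div_le_iff₀ (by positivity)]
  nlinarith [pi_le_four]

theorem W_kol {p j q : ℕ} (hp : 0 < p) (hj : j < p) {y : ℝ}
    (hne : ∀ i ∈ Ioc j (2 * p), ex (y - i * (2 * π / (8 * p : ℕ))) - 1 ≠ 0)
    (h1 : 8 * p * 4 ^ (2 * p) + 2 * (8 * p * 4 ^ j) ≤ 8 * p * q)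
    (h2 : 8 * p * q + 8 * p ≤ 8 * p * 4 ^ (2 * p) + 8 * p * 4 ^ (j + 1)) :
    W (kol p) (8 * p * q) (8 * p * q + 8 * p) y = ex ((8 * p * q : ℕ) * y) *
      ((ex ((8 * p : ℕ) * y) - 1) * (((1 / ((8 * p : ℕ) : ℝ) : ℝ) : ℂ) *
        ∑ i ∈ Ioc j (2 * p), (ex (y - i * (2 * π / (8 * p : ℕ))) - 1)⁻¹)) := by
  have hp' : (0 : ℝ) < p := by positivity
  unfold kol
  rw [W_smul, W_sum, ← sum_Ioc_consecutive _ (Nat.zero_le j) (by omega : j ≤ 2 * p),
    sum_eq_zero (s := Ioc 0 j), zero_add, mul_left_comm _ (((1 / ((8 * p : ℕ) : ℝ) : ℝ) : ℂ)),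
    mul_left_comm _ (((1 / ((8 * p : ℕ) : ℝ) : ℝ) : ℂ))]
  · congr 1
    rw [mul_sum, mul_sum]
    refine sum_congr rfl fun i hi => ?_
    have hi' := mem_Ioc.1 hi
    have b1 := pw_le (p := p) hi'.2
    have b2 := pw_le (p := p) (show j + 1 ≤ i from hi'.1)
    unfold ker
    rw [W_rot, W_congr (c' := fun _ => 1) fun m h3 h4 => by
      rw [tr_top (by omega) (by omega), ← Complex.ofReal_natCast, ← Complex.ofReal_mul,
        one_div_mul_cancel (by positivity), Complex.ofReal_one]]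
    unfold W
    simp only [one_mul]
    have e1 : ∀ k : ℕ, ex ((8 * p * k : ℕ) * (y - i * (2 * π / (8 * p : ℕ))))
        = ex ((8 * p * k : ℕ) * y) := fun k => by
      have : ((8 * p * k : ℕ) : ℝ) * (y - i * (2 * π / (8 * p : ℕ)))
          = (8 * p * k : ℕ) * y + ((-(k * i) : ℤ) : ℝ) * (2 * π) := by
        push_cast; field_simp; ring
      rw [this, ex_add, ex_int, mul_one]
    have e2 := e1 1
    rw [mul_one] at e2
    rw [sum_Ico_ex, e1, ← e2, ← ex_tel]
    rw [mul_right_comm (_ - 1), mul_inv_cancel₀ (hne i hi), one_mul]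
  · intro i hi
    have b1 := pw_le (p := p) (mem_Ioc.1 hi).2
    have b2 := pw_le (p := p) (show j ≤ 2 * p by omega)
    unfold ker
    rw [W_rot, W_congr (c' := fun _ => 0) fun m h3 h4 => by rw [tr_zero (by omega), mul_zero]]
    simp [W]

theorem Win_kol {p : ℕ} (hp : 0 < p) {y : ℝ} (h0 : 0 ≤ y) (h1 : y < π / 4)
    (h2 : cos (2 * ((8 * p : ℕ) * y)) ≤ 0) :
    Win (kol p) 0 (3 * (8 * p * 4 ^ (2 * p))) ((∑ k ∈ range p, 1 / ((k : ℝ) + 1)) / 96) y := by
  have hp' : (0 : ℝ) < p := by positivity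
  have hπ := pi_pos
  set n : ℝ := ((8 * p : ℕ) : ℝ) with hn
  have hn' : n = 8 * p := by rw [hn]; push_cast; ring
  have hn0 : 0 < n := by rw [hn']; positivity
  set δ : ℝ := 2 * π / n with hδ
  have hδ0 : 0 < δ := by positivity
  set j := ⌊y / δ⌋₊ with hj
  have j1 : j * δ ≤ y := (le_div_iff₀ hδ0).1 (Nat.floor_le (by positivity))
  have j2 : y < (j + 1) * δ := (div_lt_iff₀ hδ0).1 (Nat.lt_floor_add_one _)
  have hpδ : p * δ = π / 4 := by rw [hδ, hn']; field_simp; norm_num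
  have hjp : j < p := by
    have : (j : ℝ) * δ < p * δ := by linarith
    exact_mod_cast lt_of_mul_lt_mul_right this hδ0.le
  have key : ∀ i ∈ Ioc j (2 * p), ex (y - i * δ) - 1 ≠ 0 ∧
      n / 16 * (1 / ((i : ℝ) - j)) ≤ ((ex (y - i * δ) - 1)⁻¹).im := by
    intro i hi
    have hi' := mem_Ioc.1 hi
    have c1 : (j : ℝ) + 1 ≤ i := by exact_mod_cast hi'.1
    have c2 : (i : ℝ) ≤ 2 * p := by exact_mod_cast hi'.2
    have c3 : 0 < i * δ - y := by nlinarith
    have c4 : i * δ - y ≤ π / 2 := by nlinarith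
    have := im_inv c3 c4
    rw [neg_sub] at this
    refine ⟨this.1, le_trans ?_ this.2⟩
    have c5 : 0 < (i : ℝ) - j := by linarith
    have c6 : i * δ - y ≤ (i - j) * δ := by linarith
    rw [mul_one_div, div_div, div_le_div_iff₀ (by positivity) (by positivity)]
    have c7 : n * δ = 2 * π := by rw [hδ]; field_simp
    have c8 : π * π ≤ 16 := by nlinarith [pi_le_four]
    calc n * (π * (i * δ - y)) ≤ n * (π * ((i - j) * δ)) := by gcongr
      _ = 2 * (π * π * (i - j)) := by linear_combination π * (i - j) * c7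
      _ ≤ _ := by gcongr
  set Q : ℂ := ((1 / n : ℝ) : ℂ) * ∑ i ∈ Ioc j (2 * p), (ex (y - i * δ) - 1)⁻¹ with hQ
  have hQ1 : (∑ k ∈ range p, 1 / ((k : ℝ) + 1)) / 16 ≤ ‖Q‖ := by
    refine le_trans ?_ (Complex.im_le_norm _)
    rw [hQ, Complex.im_ofReal_mul, Complex.im_sum]
    refine le_trans ?_ (mul_le_mul_of_nonneg_left (sum_le_sum fun i hi => (key i hi).2)
      (by positivity))
    rw [← mul_sum, ← mul_assoc, show 1 / n * (n / 16) = 1 / 16 by field_simp,
      one_div_mul_eq_div]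
    gcongr ?_ / _
    have : ∑ k ∈ range p, 1 / ((k : ℝ) + 1) = ∑ i ∈ Ico (j + 1) (j + 1 + p), 1 / ((i : ℝ) - j) := by
      rw [sum_Ico_eq_sum_range, Nat.add_sub_cancel_left]
      refine sum_congr rfl fun k _ => ?_
      push_cast; congr 1; ring
    rw [this]
    refine sum_le_sum_of_subset_of_nonneg (fun i hi => ?_) fun i hi _ => ?_
    · have := mem_Ico.1 hi
      exact mem_Ioc.2 (by omega)
    · have : (j : ℝ) ≤ i := by exact_mod_cast (mem_Ioc.1 hi).1.le
      exact one_div_nonneg.2 (by linarith)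
  intro w hw
  have g1 : 1 ≤ 4 ^ j := Nat.one_le_pow _ _ (by norm_num)
  have g2 := pw_le (p := p) (show j + 1 ≤ 2 * p by omega)
  have g3 : 8 * p * 4 ^ (j + 1) = 4 * (8 * p * 4 ^ j) := by ring
  have g4 : 8 * p ≤ 8 * p * 4 ^ j := Nat.le_mul_of_pos_right _ g1
  set q := 4 ^ (2 * p) + 2 * 4 ^ j with hq
  have g5 : 8 * p * q = 8 * p * 4 ^ (2 * p) + 2 * (8 * p * 4 ^ j) := by rw [hq]; ring
  have g6 : 8 * p * (q + 1) = 8 * p * q + 8 * p := by ring
  have w1 := W_kol (q := q) hp hjp (fun i hi => (key i hi).1) (by omega) (by omega)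
  have w2 := W_kol (q := q + 1) hp hjp (fun i hi => (key i hi).1) (by omega) (by omega)
  rw [← hQ] at w1 w2
  set z := ex (n * y) with hz
  have e : ex ((8 * p * (q + 1) : ℕ) * y) = ex ((8 * p * q : ℕ) * y) * z := by
    rw [hz, ← ex_add, g6]; congr 1; rw [hn]; push_cast; ring
  have t := two_dir (w * W (kol p) (8 * p * q) (8 * p * q + 8 * p) y) z (norm_ex _)
  have e2 : w * W (kol p) (8 * p * q) (8 * p * q + 8 * p) y * z
      = w * W (kol p) (8 * p * (q + 1)) (8 * p * (q + 1) + 8 * p) y := by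
    rw [w1, w2, e]; ring
  have s1 : 1 / 2 ≤ |z.im| * |z.im| := by
    rw [abs_mul_abs_self, hz, ex_im]
    nlinarith [cos_two_mul (n * y), sin_sq_add_cos_sq (n * y)]
  have s2 : |z.im| ≤ ‖z - 1‖ := by simpa using Complex.abs_im_le_norm (z - 1)
  have s3 : ‖w * W (kol p) (8 * p * q) (8 * p * q + 8 * p) y‖ = ‖z - 1‖ * ‖Q‖ := by
    rw [w1, norm_mul, norm_mul, norm_mul, hw, norm_ex, one_mul, one_mul]
  rw [e2, s3] at t
  have s4 : 1 / 2 * ‖Q‖ ≤ ‖z - 1‖ * ‖Q‖ * |z.im| := by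
    rw [mul_right_comm]
    exact mul_le_mul_of_nonneg_right
      (s1.trans (mul_le_mul_of_nonneg_right s2 (abs_nonneg _))) (norm_nonneg _)
  by_contra hc
  push Not at hc
  have c1 := hc (8 * p * q) (8 * p * q + 8 * p) (by omega) (by omega) (by omega)
  have c2 := hc (8 * p * (q + 1)) (8 * p * (q + 1) + 8 * p) (by omega) (by omega) (by omega)
  linarith

/-- a polynomial of bounded `L¹` norm with large windows on a whole arc -/
theorem exists_poly (A : ℝ) (hA : 0 ≤ A) : ∃ (d : ℕ) (P : ℕ → ℂ), 0 < d ∧ (∀ m, ‖P m‖ ≤ 1) ∧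
    L1 P 0 d ≤ 6 ∧ ∀ y, 0 ≤ y → y ≤ π / 8 → Win P 0 d A y := by
  obtain ⟨p, hp, hH⟩ := ((Filter.eventually_gt_atTop 0).and
    (tendsto_sum_range_one_div_nat_succ_atTop.eventually_ge_atTop (96 * A))).exists
  have hp' : (1 : ℝ) ≤ p := by exact_mod_cast hp
  have hπ := pi_pos
  set d := 3 * (8 * p * 4 ^ (2 * p)) with hd
  have hK : ∀ y, 0 ≤ y → y < π / 4 → cos (2 * ((8 * p : ℕ) * y)) ≤ 0 → Win (kol p) 0 d A y :=
    fun y h0 h1 h2 w hw => by
      obtain ⟨a, b, c1, c2, c3, c4⟩ := Win_kol hp h0 h1 h2 w hw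
      exact ⟨a, b, c1, c2, c3, le_trans (by linarith) c4⟩
  have h1 : ∀ x, W (fun _ => 1) 0 1 x = 1 := fun x => by simp [W, ex_zero]
  refine ⟨d + 1 * d, cat (kol p) (loc (fun _ => 1) (rot (kol p) (-(π / (16 * p)))) 1 d) d,
    by positivity, fun m => ?_, ?_, fun y h0 hy => ?_⟩
  · unfold cat loc
    split_ifs
    · exact norm_kol hp _
    · rw [one_mul, norm_rot]; exact norm_kol hp _
  · refine (L1_cat _ _ (Nat.zero_le _) (Nat.le_add_right _ _)).trans ?_
    have h2 := L1_loc (φ := fun _ => 1) (P := rot (kol p) (-(π / (16 * p)))) one_pos d d (m := 1)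
      fun x => by simp [h1]
    rw [L1_rot] at h2
    have := L1_kol hp
    linarith
  · by_cases hc : cos (2 * ((8 * p : ℕ) * y)) ≤ 0
    · exact (hK y h0 (by linarith) hc).catL _ (Nat.le_add_right _ _)
    · have h3 : π / (16 * p) ≤ π / 16 := by gcongr; linarith
      have h4 := hK (y + π / (16 * p)) (by positivity) (by linarith) (by
        rw [show 2 * (((8 * p : ℕ) : ℝ) * (y + π / (16 * p))) = 2 * ((8 * p : ℕ) * y) + π by
          push_cast; field_simp; ring, cos_add_pi]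
        linarith)
      have h5 := Win.loc (φ := fun _ => 1) (P := rot (kol p) (-(π / (16 * p)))) (lam := d) (d := d)
        (x := y) one_pos hA one_pos (by simp [h1]) (Win.rot (by simpa using h4))
      rw [one_mul A] at h5
      exact h5.catR _ (Nat.zero_le _)

end Pool.Agent.Lib.MP_85199e_an
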