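import Pool.Agent.Lib.MP_85199e_an.Core

/-!
# Covering the circle by arcs whose lengths are adapted to the majorant
-/

namespace Pool.Agent.Lib.MP_85199e_an

open Finset Real Filter

theorem blk {ρ : ℕ → ℝ} (hm : Antitone ρ) (h0 : ∀ n, 0 ≤ ρ n) (e lam : ℕ) {R : ℝ} (hR : 1 ≤ R)
    (h1 : R * ρ lam ≤ 2) (Q : ℕ) (h2 : ∀ q < Q, q * ρ (lam + e * q) ≤ 1) :
    ∑ n ∈ Ico lam (lam + e * Q), ρ n ^ 2 ≤ 18 * e * (1 / R - 1 / (R + Q)) := by
  induction Q with
  | zero => simp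
  | succ Q ih =>
    have ih' := ih fun q hq => h2 q (by omega)
    rw [← sum_Ico_consecutive _ (Nat.le_add_right lam (e * Q))
      (show lam + e * Q ≤ lam + e * (Q + 1) by gcongr; omega)]
    have c1 : ∑ n ∈ Ico (lam + e * Q) (lam + e * (Q + 1)), ρ n ^ 2 ≤ e * ρ (lam + e * Q) ^ 2 := by
      refine (sum_le_card_nsmul _ _ _ fun n hn =>
        pow_le_pow_left₀ (h0 _) (hm (mem_Ico.1 hn).1) 2).trans (le_of_eq ?_)
      rw [Nat.card_Ico, nsmul_eq_mul, show lam + e * (Q + 1) - (lam + e * Q) = e by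
        rw [Nat.mul_succ]; omega]
    set x := ρ (lam + e * Q) with hx
    have x0 : 0 ≤ x := h0 _
    have c2 : R * x ≤ 2 :=
      (mul_le_mul_of_nonneg_left (hm (Nat.le_add_right _ _)) (by linarith)).trans h1
    have c3 : Q * x ≤ 1 := h2 Q (by omega)
    have q0 : (0 : ℝ) ≤ Q := by positivity
    have c4 : x ^ 2 ≤ 18 * (1 / (R + Q) - 1 / (R + (Q + 1))) := by
      have : 18 * (1 / (R + Q) - 1 / (R + (Q + 1))) = 18 / ((R + Q) * (R + (Q + 1))) := by
        field_simp; ring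
      rw [this, le_div_iff₀ (by positivity)]
      have c5 : x * (R + Q) ≤ 3 := by linarith
      have c6 : x * (R + (Q + 1)) ≤ 6 := by nlinarith
      calc x ^ 2 * ((R + Q) * (R + (Q + 1))) = x * (R + Q) * (x * (R + (Q + 1))) := by ring
        _ ≤ 3 * 6 := mul_le_mul c5 c6 (by positivity) (by norm_num)
        _ = 18 := by norm_num
    have c7 := mul_le_mul_of_nonneg_left c4 (show (0 : ℝ) ≤ e by positivity)
    push_cast
    linarith

theorem blk' {ρ : ℕ → ℝ} (hm : Antitone ρ) (h0 : ∀ n, 0 ≤ ρ n) (e lam : ℕ) {R : ℝ} (hR : 1 ≤ R)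
    (h1 : R * ρ lam ≤ 2) (Q : ℕ) (h2 : ∀ q < Q, q * ρ (lam + e * q) ≤ 1) :
    ∑ n ∈ Ico lam (lam + e * Q), ρ n ^ 2 ≤ 18 * e * (1 / R) := by
  refine (blk hm h0 e lam hR h1 Q h2).trans (mul_le_mul_of_nonneg_left ?_ (by positivity))
  have : 0 ≤ 1 / (R + Q) := by positivity
  linarith

theorem unb {ρ : ℕ → ℝ} (hd : ¬ Summable fun n => ρ n ^ 2) (a : ℕ) (B : ℝ) (b : ℕ → ℕ)
    (hb : ∀ j, a + j ≤ b j) : ∃ j, B < ∑ n ∈ Ico a (b j), ρ n ^ 2 := by
  by_contra h
  push Not at h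
  refine hd (summable_of_sum_range_le (c := ∑ n ∈ range a, ρ n ^ 2 + B)
    (fun _ => sq_nonneg _) fun j => ?_)
  have h1 : ∑ n ∈ range j, ρ n ^ 2 ≤ ∑ n ∈ range (b j), ρ n ^ 2 :=
    sum_le_sum_of_subset_of_nonneg (range_mono (by have := hb j; omega)) fun _ _ _ => sq_nonneg _
  rw [← sum_range_add_sum_Ico _ (show a ≤ b j by have := hb j; omega)] at h1
  linarith [h j]

theorem steps {ρ : ℕ → ℝ} (hm : Antitone ρ) (h0 : ∀ n, 0 ≤ ρ n) (h1 : ∀ n, ρ n ≤ 1)
    (hd : ¬ Summable fun n => ρ n ^ 2) {e : ℕ} (he : 0 < e) (Λ : ℕ) :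
    ∃ lam N : ℕ → ℕ, lam 0 = Λ ∧ (∀ j, lam (j + 1) = lam j + e * N j) ∧ (∀ j, 0 < N j) ∧
      (∀ j, 1 ≤ N j * ρ (lam (j + 1))) ∧ ∃ J, 32 ≤ ∑ j ∈ range J, 1 / (N j : ℝ) ∧
        ∑ j ∈ range J, 1 / (N j : ℝ) ≤ 33 := by
  have ex1 : ∀ l, ∃ N : ℕ, 1 ≤ N * ρ (l + e * N) := fun l => by
    by_contra h
    push Not at h
    obtain ⟨j, hj⟩ := unb hd l (18 * e * (1 / 2)) (fun j => l + e * j)
      fun j => Nat.add_le_add_left (Nat.le_mul_of_pos_left _ he) _
    exact absurd (blk' hm h0 e l one_le_two (by linarith [h1 l]) j fun q _ => (h q).le) hj.not_ge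
  classical
  set M : ℕ → ℕ := fun l => Nat.find (ex1 l) with hM
  have m1 : ∀ l, 1 ≤ M l * ρ (l + e * M l) := fun l => Nat.find_spec (ex1 l)
  have m2 : ∀ l, ∀ q < M l, q * ρ (l + e * q) ≤ 1 := fun l q hq =>
    (not_le.1 (Nat.find_min (ex1 l) hq)).le
  have m3 : ∀ l, 0 < M l := fun l => Nat.pos_of_ne_zero fun h => by
    have := m1 l; rw [h] at this; norm_num at this
  have m4 : ∀ l, M l * ρ (l + e * M l) ≤ 2 := fun l => by
    obtain ⟨q, hq⟩ : ∃ q, M l = q + 1 := ⟨M l - 1, by have := m3 l; omega⟩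
    have c1 := m2 l q (by omega)
    have c2 : ρ (l + e * (q + 1)) ≤ ρ (l + e * q) := hm (by gcongr; omega)
    have c3 := mul_le_mul_of_nonneg_left c2 (show (0 : ℝ) ≤ q by positivity)
    rw [hq]; push_cast
    linarith [h1 (l + e * (q + 1))]
  let lam : ℕ → ℕ := fun j => Nat.rec Λ (fun _ l => l + e * M l) j
  have l1 : ∀ j, lam (j + 1) = lam j + e * M (lam j) := fun _ => rfl
  have l2 : ∀ j, lam 1 + j ≤ lam (j + 1) := fun j => by
    induction j with
    | zero => rfl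
    | succ j ih =>
      have := Nat.mul_pos he (m3 (lam (j + 1)))
      rw [l1 (j + 1)]; omega
  have l3 : ∀ j, ∑ n ∈ Ico (lam 1) (lam (j + 1)), ρ n ^ 2
      ≤ 18 * e * ∑ i ∈ range j, 1 / (M (lam i) : ℝ) := fun j => by
    induction j with
    | zero => simp
    | succ j ih =>
      have c1 := blk' hm h0 e (lam (j + 1)) (R := M (lam j)) (by exact_mod_cast m3 _)
        (m4 _) _ (m2 (lam (j + 1)))
      rw [← sum_Ico_consecutive _ (show lam 1 ≤ lam (j + 1) by have := l2 j; omega)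
        (show lam (j + 1) ≤ lam (j + 1 + 1) from Nat.le_add_right _ _), sum_range_succ, mul_add]
      exact add_le_add ih c1
  have ex2 : ∃ J, 32 ≤ ∑ i ∈ range J, 1 / (M (lam i) : ℝ) := by
    obtain ⟨j, hj⟩ := unb hd (lam 1) (18 * e * 32) (fun j => lam (j + 1)) l2
    exact ⟨j, le_of_mul_le_mul_left (hj.le.trans (l3 j)) (by positivity)⟩
  refine ⟨lam, fun j => M (lam j), rfl, l1, fun _ => m3 _, fun _ => m1 _, Nat.find ex2,
    Nat.find_spec ex2, ?_⟩
  rcases h : Nat.find ex2 with _ | J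
  · simp
  · have c1 := not_le.1 (Nat.find_min ex2 (show J < Nat.find ex2 by omega))
    have c2 : 1 / (M (lam J) : ℝ) ≤ 1 :=
      (div_le_one (by exact_mod_cast m3 _)).2 (by exact_mod_cast m3 _)
    rw [sum_range_succ]; linarith

/-- a block with small coefficients, bounded `L¹` norm and large windows everywhere -/
theorem exists_block {ρ : ℕ → ℝ} (hm : Antitone ρ) (h0 : ∀ n, 0 ≤ ρ n) (h1 : ∀ n, ρ n ≤ 1)
    (hd : ¬ Summable fun n => ρ n ^ 2) (A : ℝ) (hA : 0 ≤ A) (Λ : ℕ) :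
    ∃ (Λ' : ℕ) (c : ℕ → ℂ), Λ < Λ' ∧ (∀ n, Λ ≤ n → n < Λ' → ‖c n‖ ≤ ρ n) ∧ L1 c Λ Λ' ≤ 198 ∧
      ∀ x, Win c Λ Λ' A x := by
  have hπ := pi_pos
  obtain ⟨d, P, hd0, hP, hL, hW⟩ := exists_poly (4 * A) (by positivity)
  obtain ⟨lam, N, l0, l1, n0, n1, J, j1, j2⟩ := steps hm h0 h1 hd (e := 2 * d) (by omega) Λ
  have l2 : ∀ j, lam (j + 1) = lam j + 2 * N j * d := fun j => by rw [l1]; ring
  have l3 : StrictMono lam := strictMono_nat_of_lt_succ fun j => by
    have : 0 < 2 * N j * d := by have := n0 j; positivity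
    rw [l2]; omega
  have l4 : ∀ j, Λ ≤ lam j := fun j => l0 ▸ l3.monotone (Nat.zero_le j)
  have key : ∀ j, ∃ c : ℕ → ℂ, (∀ n, Λ ≤ n → n < lam j → ‖c n‖ ≤ ρ n) ∧
      L1 c Λ (lam j) ≤ (∑ i ∈ range j, 1 / (N i : ℝ)) * 6 ∧
      ∀ x, 0 ≤ x → x < π / 16 * ∑ i ∈ range j, 1 / (N i : ℝ) → Win c Λ (lam j) A x := by
    intro j
    induction j with
    | zero =>
      refine ⟨fun _ => 0, fun n _ _ => by simpa using h0 n, by simp [L1, W], fun x c1 c2 => ?_⟩
      simp at c2; linarith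
    | succ j ih =>
      obtain ⟨c, c1, c2, c3⟩ := ih
      set t := π / 16 * ∑ i ∈ range j, 1 / (N i : ℝ) with ht
      have hN : (0 : ℝ) < N j := by exact_mod_cast n0 j
      have hL0 : 0 < 2 * N j := by have := n0 j; omega
      refine ⟨cat c (loc (bump (N j) t) (rot P ((2 * N j : ℕ) * t)) (2 * N j) (lam j)) (lam j),
        fun n a1 a2 => ?_, ?_, fun x a1 a2 => ?_⟩
      · unfold cat
        split_ifs with h
        · exact c1 n a1 h
        · unfold loc
          rw [norm_mul, norm_rot]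
          refine (mul_le_mul (norm_bump (n0 j) _ _) (hP _) (norm_nonneg _) (by positivity)).trans ?_
          rw [mul_one, div_le_iff₀' hN]
          exact (n1 j).trans (mul_le_mul_of_nonneg_left (hm a2.le) hN.le)
      · refine (L1_cat _ _ (l4 j) (l3.monotone (Nat.le_succ j))).trans ?_
        have := L1_loc (P := rot P ((2 * N j : ℕ) * t)) hL0 (lam j) d (bump_avg (n0 j) t)
        rw [L1_rot, ← l2] at this
        have c4 := mul_le_mul_of_nonneg_left hL (show 0 ≤ 1 / (N j : ℝ) by positivity)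
        rw [sum_range_succ]
        linarith
      · by_cases h : x < t
        · exact (c3 x a1 h).catL _ (l3.monotone (Nat.le_succ j))
        · rw [sum_range_succ, mul_add, ← ht] at a2
          have a3 : N j * (x - t) ≤ π / 16 := by
            have : x - t ≤ π / 16 * (1 / N j) := by linarith
            rwa [mul_one_div, le_div_iff₀' hN] at this
          have a4 : 0 ≤ N j * (x - t) := mul_nonneg hN.le (by linarith)
          have a5 := Win.loc (lam := lam j) hL0 (by positivity) (by norm_num)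
            (bump_low (n0 j) (not_lt.1 h) (by linarith [pi_le_four]))
            (Win.rot (hW ((2 * N j : ℕ) * x - (2 * N j : ℕ) * t) (by push_cast; linarith)
              (by push_cast; linarith)))
          rw [← l2, show 1 / 4 * (4 * A) = A by ring] at a5
          exact a5.catR _ (l4 j)
  obtain ⟨c, c1, c2, c3⟩ := key J
  refine ⟨lam J, c, l0 ▸ l3 (Nat.pos_of_ne_zero ?_), c1, by linarith, fun x => ?_⟩
  · rintro rfl
    norm_num at j1
  · have hp : Function.Periodic (fun x => Win c Λ (lam J) A x) (2 * π) := fun x => by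
      simp only [Win, W_periodic c _ _ x]
    obtain ⟨y, hy, e⟩ := hp.exists_mem_Ico₀ (by positivity) x
    exact e.mpr (c3 y hy.1 (hy.2.trans_le (by nlinarith)))

end Pool.Agent.Lib.MP_85199e_an
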