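import Pool.Agent.Lib.MP_85199e_an.Base

/-!
# Rotation, localisation, concatenation, trapezoids
-/

namespace Pool.Agent.Lib.MP_85199e_an

open Finset Real

/-- coefficients of the translate by `t` -/
noncomputable def rot (c : ℕ → ℂ) (t : ℝ) (n : ℕ) : ℂ := c n * ex (-(n * t))

theorem W_rot (c : ℕ → ℂ) (t : ℝ) (a b : ℕ) (x : ℝ) : W (rot c t) a b x = W c a b (x - t) := by
  unfold W rot
  refine sum_congr rfl fun n _ => ?_
  rw [mul_assoc, ← ex_add]; congr 2; ring

theorem norm_rot (c : ℕ → ℂ) (t : ℝ) (n : ℕ) : ‖rot c t n‖ = ‖c n‖ := by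
  unfold rot; rw [norm_mul, norm_ex, mul_one]

theorem L1_rot (c : ℕ → ℂ) (t : ℝ) (a b : ℕ) : L1 (rot c t) a b = L1 c a b := by
  unfold L1
  simp only [W_rot, sub_eq_add_neg]
  exact per_shift (h := fun x => ‖W c a b x‖) (fun x => by simp only [W_periodic c a b x]) _

theorem Win.rot {c : ℕ → ℂ} {lo hi : ℕ} {A x t : ℝ} (h : Win c lo hi A (x - t)) :
    Win (rot c t) lo hi A x := fun w hw => by
  simpa only [W_rot] using h w hw

/-- coefficients of `exp (i lam x) φ(x) P(L x)` when `φ` has degree below `L` -/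
noncomputable def loc (φ P : ℕ → ℂ) (L lam : ℕ) (n : ℕ) : ℂ :=
  φ ((n - lam) % L) * P ((n - lam) / L)

theorem W_loc (φ P : ℕ → ℂ) {L : ℕ} (hL : 0 < L) (lam : ℕ) {a b : ℕ} (hab : a ≤ b) (x : ℝ) :
    W (loc φ P L lam) (lam + L * a) (lam + L * b) x
      = ex (lam * x) * W φ 0 L x * W P a b (L * x) := by
  induction b, hab using Nat.le_induction with
  | base => simp [W]
  | succ b hab ih =>
    rw [W_add _ (m := lam + L * b) (by gcongr) (by gcongr; omega), ih, W_add P hab (Nat.le_succ b),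
      mul_add (ex (lam * x) * W φ 0 L x)]
    congr 1
    unfold W
    rw [sum_Ico_eq_sum_range _ (lam + L * b), show lam + L * (b + 1) - (lam + L * b) = L by
      rw [Nat.mul_succ]; omega, Nat.Ico_succ_singleton, sum_singleton, ← range_eq_Ico, mul_sum,
      sum_mul]
    refine sum_congr rfl fun r hr => ?_
    have hr' := mem_range.1 hr
    have e : lam + L * b + r - lam = r + L * b := by omega
    unfold loc
    rw [e, Nat.add_mul_mod_self_left, Nat.add_mul_div_left _ _ hL, Nat.mod_eq_of_lt hr',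
      Nat.div_eq_of_lt hr', zero_add,
      show ((lam + L * b + r : ℕ) : ℝ) * x = lam * x + r * x + b * (L * x) by push_cast; ring,
      ex_add, ex_add]
    ring

theorem Win.loc {φ P : ℕ → ℂ} {L lam d : ℕ} (hL : 0 < L) {A κ x : ℝ} (hA : 0 ≤ A) (hκ : 0 < κ)
    (h1 : κ ≤ ‖W φ 0 L x‖) (h : Win P 0 d A (L * x)) :
    Win (loc φ P L lam) lam (lam + L * d) (κ * A) x := fun w hw => by
  set u := ex (lam * x) * W φ 0 L x with hu
  have hn : ‖u‖ = ‖W φ 0 L x‖ := by rw [hu, norm_mul, norm_ex, one_mul]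
  have hp : 0 < ‖u‖ := by rw [hn]; exact hκ.trans_le h1
  obtain ⟨a, b, -, hab, hb, H⟩ := h (w * u / (‖u‖ : ℝ)) (by
    rw [norm_div, norm_mul, hw, one_mul, Complex.norm_real, norm_norm, div_self hp.ne'])
  refine ⟨lam + L * a, lam + L * b, by omega, by gcongr, by gcongr, ?_⟩
  rw [W_loc _ _ hL _ hab, ← hu]
  have e : w * (u * W P a b (L * x)) = (‖u‖ : ℝ) * (w * u / (‖u‖ : ℝ) * W P a b (L * x)) := by
    have : ((‖u‖ : ℝ) : ℂ) ≠ 0 := by exact_mod_cast hp.ne'
    field_simp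
  rw [e, Complex.re_ofReal_mul, abs_mul, abs_of_pos hp]
  exact mul_le_mul (hn ▸ h1) H hA hp.le

theorem L1_loc {φ P : ℕ → ℂ} {L : ℕ} (hL : 0 < L) (lam d : ℕ) {m : ℝ}
    (hm : ∀ x, ∑ r ∈ range L, ‖W φ 0 L (x + r * (2 * π / L))‖ ≤ L * m) :
    L1 (loc φ P L lam) lam (lam + L * d) ≤ m * L1 P 0 d := by
  have := avg (g := fun x => ‖W φ 0 L x‖) (h := fun x => ‖W P 0 d x‖) (by fun_prop)
    (fun x => by simp only [W_periodic φ 0 L x]) (by fun_prop)
    (fun x => by simp only [W_periodic P 0 d x]) (fun _ => norm_nonneg _) hL hm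
  refine le_of_eq_of_le (intervalIntegral.integral_congr fun x _ => ?_) this
  have := W_loc φ P hL lam (Nat.zero_le d) x
  rw [mul_zero, add_zero] at this
  simp only [this, norm_mul, norm_ex, one_mul]

/-- `c` below `m`, `c'` from `m` on -/
noncomputable def cat (c c' : ℕ → ℂ) (m n : ℕ) : ℂ := if n < m then c n else c' n

theorem L1_cat (c c' : ℕ → ℂ) {a m b : ℕ} (h1 : a ≤ m) (h2 : m ≤ b) :
    L1 (cat c c' m) a b ≤ L1 c a m + L1 c' m b := by
  unfold L1
  rw [← intervalIntegral.integral_add (Continuous.intervalIntegrable (by fun_prop) _ _)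
    (Continuous.intervalIntegrable (by fun_prop) _ _)]
  refine intervalIntegral.integral_mono_on (by positivity)
    (Continuous.intervalIntegrable (by fun_prop) _ _)
    (Continuous.intervalIntegrable (by fun_prop) _ _) fun x _ => ?_
  rw [W_add _ h1 h2, W_congr (c := cat c c' m) (c' := c) (b := m) fun n _ h => if_pos h,
    W_congr (c := cat c c' m) (c' := c') (a := m) fun n h _ => if_neg (by omega)]
  exact norm_add_le _ _

theorem Win.catL {c : ℕ → ℂ} (c' : ℕ → ℂ) {a m b : ℕ} {A x : ℝ} (h : Win c a m A x)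
    (h2 : m ≤ b) : Win (cat c c' m) a b A x := h.mono le_rfl h2 fun _ _ h => if_pos h

theorem Win.catR (c : ℕ → ℂ) {c' : ℕ → ℂ} {a m b : ℕ} {A x : ℝ} (h : Win c' m b A x)
    (h1 : a ≤ m) : Win (cat c c' m) a b A x :=
  h.mono h1 le_rfl fun _ h _ => if_neg (by omega)

/-- coefficients of `exp (i o x) D M x D M' x` -/
noncomputable def tr (o M M' m : ℕ) : ℂ :=
  ∑ k ∈ range M, if o + k ≤ m ∧ m < o + k + M' then 1 else 0

theorem norm_tr (o M M' m : ℕ) : ‖tr o M M' m‖ ≤ M := by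
  unfold tr
  refine (norm_sum_le _ _).trans ((sum_le_card_nsmul _ _ 1 fun k _ => ?_).trans (by simp))
  split_ifs <;> simp

theorem tr_top {o M M' m : ℕ} (h1 : o + M ≤ m) (h2 : m < o + M') : tr o M M' m = M := by
  unfold tr
  rw [sum_congr rfl fun k hk => if_pos (by have := mem_range.1 hk; omega)]
  simp

theorem tr_zero {o M M' m : ℕ} (h : o + M + M' ≤ m) : tr o M M' m = 0 :=
  sum_eq_zero fun k hk => if_neg (by have := mem_range.1 hk; omega)

theorem sum_Ico_ex (a n : ℕ) (x : ℝ) : ∑ m ∈ Ico a (a + n), ex (m * x) = ex (a * x) * D n x := by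
  rw [sum_Ico_eq_sum_range, Nat.add_sub_cancel_left, D, mul_sum]
  refine sum_congr rfl fun r _ => ?_
  rw [← ex_add]; congr 1; push_cast; ring

theorem W_tr {o M M' H : ℕ} (h : o + M + M' ≤ H) (x : ℝ) :
    W (tr o M M') 0 H x = ex (o * x) * D M x * D M' x := by
  unfold W tr
  simp only [sum_mul]
  rw [sum_comm, D, mul_sum, sum_mul]
  refine sum_congr rfl fun k hk => ?_
  have hk' := mem_range.1 hk
  have e : ∑ m ∈ Ico 0 H, (if o + k ≤ m ∧ m < o + k + M' then (1 : ℂ) else 0) * ex (m * x)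
      = ∑ m ∈ Ico (o + k) (o + k + M'), ex (m * x) := by
    simp only [ite_mul, one_mul, zero_mul]
    rw [← sum_filter]
    refine sum_congr ?_ fun _ _ => rfl
    ext m; simp only [mem_filter, mem_Ico]; omega
  rw [e, sum_Ico_ex, ← ex_add]; congr 2; push_cast; ring

theorem W_smul (u : ℂ) (c : ℕ → ℂ) (a b : ℕ) (x : ℝ) :
    W (fun n => u * c n) a b x = u * W c a b x := by
  unfold W; rw [mul_sum]; exact sum_congr rfl fun _ _ => mul_assoc _ _ _

theorem L1_smul (u : ℂ) (c : ℕ → ℂ) (a b : ℕ) :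
    L1 (fun n => u * c n) a b = ‖u‖ * L1 c a b := by
  unfold L1
  simp only [W_smul, norm_mul, intervalIntegral.integral_const_mul]

theorem Win.smul {c : ℕ → ℂ} {lo hi : ℕ} {A x u : ℝ} (h : Win c lo hi A x) (hu : 0 ≤ u) :
    Win (fun n => (u : ℂ) * c n) lo hi (u * A) x := fun w hw => by
  obtain ⟨a, b, h1, h2, h3, H⟩ := h w hw
  refine ⟨a, b, h1, h2, h3, ?_⟩
  rw [W_smul, mul_left_comm, Complex.re_ofReal_mul, abs_mul, abs_of_nonneg hu]
  exact mul_le_mul_of_nonneg_left H hu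

/-- the Fejer bump at `s` -/
noncomputable def bump (N : ℕ) (s : ℝ) : ℕ → ℂ :=
  rot (fun n => ((1 / (N : ℝ) ^ 2 : ℝ) : ℂ) * tr 0 N N n) s

theorem norm_bump {N : ℕ} (hN : 0 < N) (s : ℝ) (n : ℕ) : ‖bump N s n‖ ≤ 1 / N := by
  have hN' : (0 : ℝ) < N := by positivity
  unfold bump
  rw [norm_rot, norm_mul, Complex.norm_real, Real.norm_of_nonneg (by positivity)]
  refine (mul_le_mul_of_nonneg_left (norm_tr _ _ _ _) (by positivity)).trans (le_of_eq ?_)
  field_simp

theorem norm_W_bump (N : ℕ) (s x : ℝ) :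
    ‖W (bump N s) 0 (2 * N) x‖ = 1 / (N : ℝ) ^ 2 * ‖D N (x - s)‖ ^ 2 := by
  unfold bump
  rw [W_rot, W_smul, W_tr (by omega), norm_mul, norm_mul, norm_mul, norm_ex, Complex.norm_real,
    Real.norm_of_nonneg (by positivity)]
  ring

theorem bump_avg {N : ℕ} (hN : 0 < N) (s x : ℝ) :
    ∑ r ∈ range (2 * N), ‖W (bump N s) 0 (2 * N) (x + r * (2 * π / (2 * N : ℕ)))‖
      ≤ (2 * N : ℕ) * (1 / (N : ℝ)) := by
  have hN' : (0 : ℝ) < N := by positivity
  simp only [norm_W_bump, show ∀ t : ℝ, x + t - s = x - s + t from fun t => by ring]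
  rw [← mul_sum, parseval (by omega)]
  refine le_of_eq ?_
  field_simp

theorem bump_low {N : ℕ} (hN : 0 < N) {s x : ℝ} (h1 : s ≤ x) (h2 : N * (x - s) ≤ 1) :
    1 / 4 ≤ ‖W (bump N s) 0 (2 * N) x‖ := by
  have hN' : (0 : ℝ) < N := by positivity
  have h3 : (N : ℝ) * (1 / 2) ≤ ‖D N (x - s)‖ := by
    refine le_trans ?_ (Complex.re_le_norm _)
    unfold D
    rw [Complex.re_sum]
    refine le_trans (by simp) (card_nsmul_le_sum _ _ (1 / 2 : ℝ) fun k hk => ?_)
    have hk' : (k : ℝ) ≤ N := by exact_mod_cast (mem_range.1 hk).le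
    have h4 : (k : ℝ) * (x - s) ≤ 1 := (mul_le_mul_of_nonneg_right hk' (by linarith)).trans h2
    have h5 : 0 ≤ (k : ℝ) * (x - s) := mul_nonneg (by positivity) (by linarith)
    rw [ex_re]
    refine le_trans ?_ one_sub_sq_div_two_le_cos
    nlinarith
  rw [norm_W_bump]
  refine le_trans (le_of_eq ?_) (mul_le_mul_of_nonneg_left
    (pow_le_pow_left₀ (by positivity) h3 2) (by positivity))
  field_simp
  norm_num

end Pool.Agent.Lib.MP_85199e_an
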