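import Pool.Agent.Lib.MP_85199e_an.RealForm

/-!
# One localised term with nonnegative coefficients
-/

namespace Pool.Agent.Lib.MP_85199e_an

open Finset Real

/-- `z` is a real number in `[0, r]` -/
def Ok (r : ℝ) (z : ℂ) : Prop := z.im = 0 ∧ 0 ≤ z.re ∧ z.re ≤ r

/-- in the direction `w` some window inside `[lo, hi)` is large at `x` -/
def Wd (c : ℕ → ℂ) (lo hi : ℕ) (A x : ℝ) (w : ℂ) : Prop :=
  ∃ a b, lo ≤ a ∧ a ≤ b ∧ b ≤ hi ∧ A ≤ |(w * W c a b x).re|

theorem Wd.mono {c c' : ℕ → ℂ} {lo hi lo' hi' : ℕ} {A x : ℝ} {w : ℂ} (h : Wd c lo hi A x w)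
    (h1 : lo' ≤ lo) (h2 : hi ≤ hi') (e : ∀ n, lo ≤ n → n < hi → c' n = c n) :
    Wd c' lo' hi' A x w := by
  obtain ⟨a, b, ha, hab, hb, H⟩ := h
  refine ⟨a, b, h1.trans ha, hab, hb.trans h2, ?_⟩
  rwa [W_congr (c' := c) fun n h3 h4 => e n (ha.trans h3) (h4.trans_le hb)]

theorem Wd.smul {c : ℕ → ℂ} {lo hi : ℕ} {A x u : ℝ} {w : ℂ} (h : Wd c lo hi A x w) (hu : 0 ≤ u) :
    Wd (fun n => (u : ℂ) * c n) lo hi (u * A) x w := by
  obtain ⟨a, b, h1, h2, h3, H⟩ := h
  refine ⟨a, b, h1, h2, h3, ?_⟩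
  rw [W_smul, mul_left_comm, Complex.re_ofReal_mul, abs_mul, abs_of_nonneg hu]
  exact mul_le_mul_of_nonneg_left H hu

theorem W_conj (c : ℕ → ℂ) (a b : ℕ) (x : ℝ) :
    W (fun n => (starRingEnd ℂ) (c n)) a b x = (starRingEnd ℂ) (W c a b (-x)) := by
  unfold W
  rw [map_sum]
  refine sum_congr rfl fun n _ => ?_
  rw [map_mul, conj_ex, mul_neg, neg_neg]

theorem L1_conj (c : ℕ → ℂ) (a b : ℕ) : L1 (fun n => (starRingEnd ℂ) (c n)) a b = L1 c a b := by
  unfold L1
  simp only [W_conj, Complex.norm_conj]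
  have hp : Function.Periodic (fun x => ‖W c a b x‖) (2 * π) := fun x => by
    simp only [W_periodic c a b x]
  have := hp.intervalIntegral_add_eq (-(2 * π)) 0
  rw [neg_add_cancel, zero_add] at this
  rw [intervalIntegral.integral_comp_neg fun x => ‖W c a b x‖, neg_zero, this]

theorem W_plus (c c' : ℕ → ℂ) (a b : ℕ) (x : ℝ) :
    W (fun n => c n + c' n) a b x = W c a b x + W c' a b x := by
  unfold W; simp only [add_mul, sum_add_distrib]

theorem L1_plus (c c' : ℕ → ℂ) (a b : ℕ) :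
    L1 (fun n => c n + c' n) a b ≤ L1 c a b + L1 c' a b := by
  unfold L1
  rw [← intervalIntegral.integral_add (Continuous.intervalIntegrable (by fun_prop) _ _)
    (Continuous.intervalIntegrable (by fun_prop) _ _)]
  refine intervalIntegral.integral_mono_on (by positivity)
    (Continuous.intervalIntegrable (by fun_prop) _ _)
    (Continuous.intervalIntegrable (by fun_prop) _ _) fun x _ => ?_
  rw [W_plus]; exact norm_add_le _ _

theorem L1_zero (a b : ℕ) : L1 (fun _ => 0) a b = 0 := by simp [L1, W]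

theorem tr_real (o M M' m : ℕ) : (tr o M M' m).im = 0 ∧ 0 ≤ (tr o M M' m).re := by
  unfold tr
  rw [Complex.im_sum, Complex.re_sum]
  refine ⟨sum_eq_zero fun k _ => ?_, sum_nonneg fun k _ => ?_⟩ <;> split_ifs <;> simp

theorem L1_tr' (o M : ℕ) : L1 (tr o M (2 * M)) o (o + M + 2 * M) ≤ 3 * π * M := by
  refine le_of_eq_of_le ?_ (L1_tr (o := o) (M := M) le_rfl)
  unfold L1
  refine intervalIntegral.integral_congr fun x _ => ?_
  have : W (tr o M (2 * M)) 0 o x = 0 := by
    rw [W_congr (c := tr o M (2 * M)) (c' := fun _ => 0) (a := 0) (b := o) fun n _ h =>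
      sum_eq_zero fun k _ => if_neg (by omega)]
    simp [W]
  simp only [W_add (tr o M (2 * M)) (Nat.zero_le o) (show o ≤ o + M + 2 * M by omega), this,
    zero_add]

theorem norm_D {u σ : ℝ} (hσ : 0 < σ) (h : σ ≤ ‖ex u - 1‖) (n : ℕ) : ‖D n u‖ ≤ 2 / σ := by
  have h1 := congrArg norm (ex_tel u n)
  have h2 : ‖ex (n * u) - 1‖ ≤ 2 := (norm_sub_le _ _).trans (by rw [norm_ex, norm_one]; norm_num)
  rw [norm_mul] at h1
  rw [le_div_iff₀' hσ]
  exact (mul_le_mul_of_nonneg_right h (norm_nonneg _)).trans (h1.trans_le h2)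

theorem norm_ex_sub (u : ℝ) : ‖ex u - 1‖ = 2 * |sin (u / 2)| := by
  have := Complex.norm_exp_I_mul_ofReal_sub_one u
  rw [mul_comm] at this
  unfold ex
  rw [this, Real.norm_eq_abs, abs_mul, abs_two]

theorem norm_W_le {P : ℕ → ℂ} (hP : ∀ m, ‖P m‖ ≤ 1) (a : ℕ) {b d : ℕ} (h : b ≤ d) (x : ℝ) :
    ‖W P a b x‖ ≤ d := by
  refine (norm_sum_le _ _).trans ((sum_le_card_nsmul _ _ 1 fun n _ => ?_).trans ?_)
  · rw [norm_mul, norm_ex, mul_one]; exact hP n
  · rw [Nat.card_Ico, nsmul_eq_mul, mul_one]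
    exact_mod_cast (Nat.sub_le _ _).trans h

theorem one_term {P : ℕ → ℂ} {d : ℕ} (hd : 0 < d) (hP : ∀ m, ‖P m‖ ≤ 1) (hL : L1 P 0 d ≤ 6)
    {A : ℝ} (hA : 0 ≤ A) (hW : ∀ y, 0 ≤ y → y ≤ π / 8 → Win P 0 d A y) {N : ℕ} {σ : ℝ}
    (hσ : 0 < σ) (hσ1 : σ ≤ 1) (hN : 2 * d ≤ N * σ) (s : ℝ) (lam : ℕ) :
    ∃ c : ℕ → ℂ, (∀ n, Ok (2 / N) (c n)) ∧ L1 c lam (lam + 6 * d * N) ≤ 18 * (1 / N) ∧
      ∀ x, s ≤ x → N * (x - s) ≤ π / 16 → ∀ w : ℂ, ‖w‖ = 1 →
        (σ ≤ |sin x| ∨ (x = π ∧ w = 1)) → Wd c lam (lam + 6 * d * N) (A / 8 - 2) x w := by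
  have hπ := pi_pos
  have hd' : (1 : ℝ) ≤ d := by exact_mod_cast hd
  have hN' : (0 : ℝ) < N := by
    by_contra h
    nlinarith [not_lt.1 h]
  have hN0 : 0 < N := by exact_mod_cast hN'
  have hL0 : 0 < 2 * N := by omega
  obtain ⟨m, hm⟩ : ∃ m, m = 2 * N * d := ⟨_, rfl⟩
  have hm0 : (0 : ℝ) < m := by rw [hm]; positivity
  have e6 : lam + 6 * d * N = lam + m + 2 * m := by rw [hm]; ring
  set Q := rot P ((2 * N : ℕ) * s) with hQ
  set T := loc (bump N s) Q (2 * N) (lam + m) with hT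
  set T' := cat (fun _ => 0) (cat T (fun _ => 0) (lam + m + m)) (lam + m) with hT'
  have t0 : ∀ n, ‖T n‖ ≤ 1 / N := fun n => by
    rw [hT, loc, norm_mul, hQ, norm_rot]
    exact (mul_le_mul (norm_bump hN0 _ _) (hP _) (norm_nonneg _) (by positivity)).trans
      (mul_one _).le
  have t1 : ∀ n, lam + m ≤ n → n < lam + m + m → T' n = T n := fun n h1 h2 => by
    rw [hT', cat, if_neg (by omega), cat, if_pos h2]
  have t2 : ∀ n, ¬ (lam + m ≤ n ∧ n < lam + m + m) → T' n = 0 := fun n h => by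
    rw [hT', cat]
    split_ifs with h1
    · rfl
    · rw [cat, if_neg (by omega)]
  have t3 : L1 T' lam (lam + m + 2 * m) ≤ 1 / N * 6 := by
    have h1 := L1_loc (P := Q) hL0 (lam + m) d (bump_avg hN0 s)
    rw [hQ, L1_rot, ← hm, ← hQ, ← hT] at h1
    have h2 := L1_cat (fun _ => 0) (cat T (fun _ => 0) (lam + m + m)) (a := lam) (m := lam + m)
      (b := lam + m + 2 * m) (by omega) (by omega)
    have h3 := L1_cat T (fun _ => 0) (a := lam + m) (m := lam + m + m)
      (b := lam + m + 2 * m) (by omega) (by omega)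
    rw [L1_zero] at h2 h3
    have h4 := mul_le_mul_of_nonneg_left hL (show 0 ≤ 1 / (N : ℝ) by positivity)
    linarith
  refine ⟨fun n => ((1 / (N * m) : ℝ) : ℂ) * tr lam m (2 * m) n +
    (((1 / 2 : ℝ) : ℂ) * T' n + ((1 / 2 : ℝ) : ℂ) * (starRingEnd ℂ) (T' n)), fun n => ?_, ?_,
    fun x x1 x2 w hw hx => ?_⟩
  · have r1 := tr_real lam m (2 * m) n
    have r2 : (tr lam m (2 * m) n).re ≤ m := (Complex.re_le_norm _).trans (norm_tr _ _ _ _)
    have r3 : 1 / (N * m : ℝ) * m = 1 / N := by field_simp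
    have r4 := mul_le_mul_of_nonneg_left r2 (show 0 ≤ 1 / (N * m : ℝ) by positivity)
    have r5 := mul_nonneg (show 0 ≤ 1 / (N * m : ℝ) by positivity) r1.2
    have r6 : (2 : ℝ) / N = 1 / N + 1 / N := by ring
    have r7 : 0 ≤ 1 / (N : ℝ) := by positivity
    unfold Ok
    simp only [Complex.add_im, Complex.add_re, Complex.im_ofReal_mul, Complex.re_ofReal_mul,
      Complex.conj_re, Complex.conj_im, r1.1]
    refine ⟨by ring, ?_⟩
    by_cases h : lam + m ≤ n ∧ n < lam + m + m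
    · have r8 := abs_le.1 ((Complex.abs_re_le_norm _).trans (t0 n))
      rw [t1 n h.1 h.2, tr_top h.1 (by omega), Complex.natCast_re]
      constructor <;> linarith [r8.1, r8.2]
    · rw [t2 n h, Complex.zero_re]
      constructor <;> linarith
  · rw [e6]
    refine (L1_plus _ _ _ _).trans ((add_le_add_right (L1_plus _ _ _ _) _).trans ?_)
    rw [L1_smul, L1_smul, L1_smul, L1_conj, Complex.norm_real, Complex.norm_real,
      Real.norm_of_nonneg (by positivity), Real.norm_of_nonneg (by positivity)]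
    have h1 := mul_le_mul_of_nonneg_left (L1_tr' lam m)
      (show 0 ≤ 1 / (N * m : ℝ) by positivity)
    have h2 : 1 / (N * m : ℝ) * (3 * π * m) = 3 * π * (1 / N) := by field_simp
    have h3 : 3 * π * (1 / N) ≤ 12 * (1 / N) :=
      mul_le_mul_of_nonneg_right (by linarith [pi_le_four]) (by positivity)
    linarith
  · have a4 : 0 ≤ N * (x - s) := mul_nonneg hN'.le (by linarith)
    set u := ex ((lam + m : ℕ) * x) * W (bump N s) 0 (2 * N) x with hu
    have u1 : 1 / 4 ≤ ‖u‖ := by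
      rw [hu, norm_mul, norm_ex, one_mul]
      exact bump_low hN0 x1 (by linarith [pi_le_four])
    have hp : 0 < ‖u‖ := by linarith
    obtain ⟨a, b, -, hab, hb, H⟩ := Win.rot (hW ((2 * N : ℕ) * x - (2 * N : ℕ) * s)
      (by push_cast; linarith) (by push_cast; linarith)) (w * u / (‖u‖ : ℝ)) (by
        rw [norm_div, norm_mul, hw, one_mul, Complex.norm_real, norm_norm, div_self hp.ne'])
    rw [← hQ] at H
    have b1 : 2 * N * a ≤ 2 * N * b := by gcongr
    have b2 : 2 * N * b ≤ m := by rw [hm]; gcongr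
    refine ⟨lam + m + 2 * N * a, lam + m + 2 * N * b, by omega, by omega, by omega, ?_⟩
    have w1 : ∀ y, W T' (lam + m + 2 * N * a) (lam + m + 2 * N * b) y
        = ex ((lam + m : ℕ) * y) * W (bump N s) 0 (2 * N) y * W Q a b ((2 * N : ℕ) * y) :=
      fun y => by
        rw [W_congr (c' := T) fun n h1 h2 => t1 n (by omega) (by omega), hT, W_loc _ _ hL0 _ hab]
    have w2 : A / 4 ≤ |(w * W T' (lam + m + 2 * N * a) (lam + m + 2 * N * b) x).re| := by
      rw [w1, ← hu]
      have e : w * (u * W Q a b ((2 * N : ℕ) * x))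
          = (‖u‖ : ℝ) * (w * u / (‖u‖ : ℝ) * W Q a b ((2 * N : ℕ) * x)) := by
        have : ((‖u‖ : ℝ) : ℂ) ≠ 0 := by exact_mod_cast hp.ne'
        field_simp
      rw [e, Complex.re_ofReal_mul, abs_mul, abs_of_pos hp]
      linarith [mul_le_mul u1 H hA hp.le]
    have w3 : ‖((1 / (N * m) : ℝ) : ℂ) *
        W (tr lam m (2 * m)) (lam + m + 2 * N * a) (lam + m + 2 * N * b) x‖ ≤ 1 := by
      have s1 : σ ≤ ‖ex x - 1‖ := by
        rcases hx with h | ⟨h, -⟩
        · refine h.trans ?_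
          simpa [ex_im] using Complex.abs_im_le_norm (ex x - 1)
        · rw [norm_ex_sub, h, sin_pi_div_two, abs_one]; linarith
      obtain ⟨k, hk⟩ := Nat.exists_eq_add_of_le (Nat.add_le_add_left b1 (lam + m))
      rw [W_congr (c' := fun _ => (m : ℂ) * 1) fun n h1 h2 => by
        rw [tr_top (by omega) (by omega), mul_one], W_smul, hk]
      unfold W
      simp only [one_mul]
      rw [sum_Ico_ex, norm_mul, norm_mul, norm_mul, norm_ex, one_mul, Complex.norm_real,
        Real.norm_of_nonneg (by positivity), Complex.norm_natCast, ← mul_assoc,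
        show 1 / (N * m : ℝ) * m = 1 / N by field_simp]
      refine (mul_le_mul_of_nonneg_left (norm_D hσ s1 k) (by positivity)).trans ?_
      rw [div_mul_div_comm, div_le_one (by positivity)]
      linarith
    rw [W_plus, W_plus, W_smul, W_smul, W_smul, W_conj]
    set Z1 := ((1 / (N * m) : ℝ) : ℂ) *
      W (tr lam m (2 * m)) (lam + m + 2 * N * a) (lam + m + 2 * N * b) x
    have z1 : |(w * Z1).re| ≤ 1 :=
      (Complex.abs_re_le_norm _).trans (by rwa [norm_mul, hw, one_mul])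
    rcases hx with h | ⟨h, rfl⟩
    · have s2 : σ ≤ ‖ex (-x - s) - 1‖ := by
        rw [norm_ex_sub, show (-x - s) / 2 = -((x + s) / 2) by ring, sin_neg, abs_neg]
        have c1 := abs_sin_sub_sin_le x ((x + s) / 2)
        have c2 := abs_sub_abs_le_abs_sub (sin x) (sin ((x + s) / 2))
        rw [abs_of_nonneg (a := x - (x + s) / 2) (by linarith)] at c1
        have c3 : x - s ≤ σ := by
          refine le_of_mul_le_mul_left ?_ hN'
          linarith [pi_le_four]
        linarith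
      have z2 : ‖W T' (lam + m + 2 * N * a) (lam + m + 2 * N * b) (-x)‖ ≤ 1 := by
        rw [w1, norm_mul, norm_mul, norm_ex, one_mul, norm_W_bump]
        have c1 := pow_le_pow_left₀ (norm_nonneg _) (norm_D hσ s2 N) 2
        have c2 := norm_W_le (P := Q) (fun k => by rw [hQ, norm_rot]; exact hP k) a hb
          ((2 * N : ℕ) * -x)
        refine (mul_le_mul (mul_le_mul_of_nonneg_left c1 (by positivity)) c2 (norm_nonneg _)
          (by positivity)).trans ?_
        rw [show 1 / (N : ℝ) ^ 2 * (2 / σ) ^ 2 * d = 4 * d / (N * σ) ^ 2 by field_simp; norm_num,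
          div_le_one (by positivity)]
        nlinarith
      set Z2 := W T' (lam + m + 2 * N * a) (lam + m + 2 * N * b) x
      set Z3 := W T' (lam + m + 2 * N * a) (lam + m + 2 * N * b) (-x)
      have z3 : |(w * (starRingEnd ℂ) Z3).re| ≤ 1 :=
        (Complex.abs_re_le_norm _).trans (by rwa [norm_mul, hw, one_mul, Complex.norm_conj])
      rw [mul_add, mul_add, mul_left_comm w _ Z2, mul_left_comm w _ ((starRingEnd ℂ) Z3),
        Complex.add_re, Complex.add_re, Complex.re_ofReal_mul, Complex.re_ofReal_mul]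
      have c1 := abs_le.1 z1
      have c2 := abs_le.1 z3
      rcases le_abs.1 w2 with c | c
      · exact le_abs.2 (Or.inl (by linarith [c1.1, c2.1]))
      · exact le_abs.2 (Or.inr (by linarith [c1.2, c2.2]))
    · have e : W T' (lam + m + 2 * N * a) (lam + m + 2 * N * b) (-x)
          = W T' (lam + m + 2 * N * a) (lam + m + 2 * N * b) x := by
        rw [← W_periodic T' _ _ (-x), h]; congr 1; ring
      rw [e]
      simp only [one_mul, Complex.add_re, Complex.re_ofReal_mul, Complex.conj_re] at z1 w2 ⊢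
      have c1 := abs_le.1 z1
      rcases le_abs.1 w2 with c | c
      · exact le_abs.2 (Or.inl (by linarith [c1.1]))
      · exact le_abs.2 (Or.inr (by linarith [c1.2]))

end Pool.Agent.Lib.MP_85199e_an
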