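import Pool.Agent.Lib.MP_85199e_an.Pos

/-!
# Blocks with nonnegative coefficients and their sum
-/

namespace Pool.Agent.Lib.MP_85199e_an

open Finset Real Filter MeasureTheory

theorem min_div {ρ : ℕ → ℝ} (hd : ¬ Summable fun n => ρ n ^ 2) {η : ℝ} (hη : 0 < η) :
    ¬ Summable fun n => min (ρ n / 2) η ^ 2 := fun h => by
  have h1 := h.tendsto_atTop_zero.eventually_lt_const (pow_pos hη 2)
  refine hd ((h.mul_left 4).congr_atTop (h1.mono fun n hn => ?_))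
  rcases le_total (ρ n / 2) η with h2 | h2
  · simp only [min_eq_left h2]; ring
  · simp [min_eq_right h2] at hn

theorem pos_block {ρ : ℕ → ℝ} (hm : Antitone ρ) (h0 : ∀ n, 0 ≤ ρ n)
    (hd : ¬ Summable fun n => ρ n ^ 2) (A : ℝ) (hA : 0 ≤ A) {σ : ℝ} (hσ : 0 < σ) (hσ1 : σ ≤ 1)
    (Λ : ℕ) : ∃ (Λ' : ℕ) (c : ℕ → ℂ), Λ < Λ' ∧ (∀ n, Λ ≤ n → n < Λ' → Ok (ρ n) (c n)) ∧
      L1 c Λ Λ' ≤ 594 ∧ ∀ x, 0 ≤ x → x < 2 * π → ∀ w : ℂ, ‖w‖ = 1 →
        (σ ≤ |sin x| ∨ (x = π ∧ w = 1)) → Wd c Λ Λ' A x w := by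
  have hπ := pi_pos
  obtain ⟨d, P, hd0, hP, hL, hW⟩ := exists_poly (8 * (A + 2)) (by positivity)
  have hd' : (1 : ℝ) ≤ d := by exact_mod_cast hd0
  have hη : 0 < σ / (2 * d) := by positivity
  obtain ⟨lam, N, l0, l1, n0, n1, J, j1, j2⟩ := steps (ρ := fun n => min (ρ n / 2) (σ / (2 * d)))
    (fun a b h => min_le_min_right _ (by linarith [hm h]))
    (fun n => le_min (by linarith [h0 n]) hη.le)
    (fun n => (min_le_right _ _).trans ((div_le_one (by positivity)).2 (by linarith)))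
    (min_div hd hη) (e := 6 * d) (by omega) Λ
  have l3 : StrictMono lam := strictMono_nat_of_lt_succ fun j => by
    have : 0 < 6 * d * N j := by have := n0 j; positivity
    rw [l1]; omega
  have l4 : ∀ j, Λ ≤ lam j := fun j => l0 ▸ l3.monotone (Nat.zero_le j)
  have key : ∀ j, ∃ c : ℕ → ℂ, (∀ n, Λ ≤ n → n < lam j → Ok (ρ n) (c n)) ∧
      L1 c Λ (lam j) ≤ 18 * (∑ i ∈ range j, 1 / (N i : ℝ)) ∧
      ∀ x, 0 ≤ x → x < π / 16 * ∑ i ∈ range j, 1 / (N i : ℝ) → ∀ w : ℂ, ‖w‖ = 1 →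
        (σ ≤ |sin x| ∨ (x = π ∧ w = 1)) → Wd c Λ (lam j) A x w := by
    intro j
    induction j with
    | zero =>
      refine ⟨fun _ => 0, fun n _ _ => ⟨rfl, le_rfl, h0 n⟩, by simp [L1, W], fun x c1 c2 => ?_⟩
      simp at c2; linarith
    | succ j ih =>
      obtain ⟨c, c1, c2, c3⟩ := ih
      set t := π / 16 * ∑ i ∈ range j, 1 / (N i : ℝ) with ht
      have hN : (0 : ℝ) < N j := by exact_mod_cast n0 j
      have k1 : 2 * d ≤ N j * σ := by
        have := (n1 j).trans (mul_le_mul_of_nonneg_left (min_le_right _ _) hN.le)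
        rwa [← mul_div_assoc, le_div_iff₀ (by positivity), one_mul] at this
      have k2 : 2 / N j ≤ ρ (lam (j + 1)) := by
        have := (n1 j).trans (mul_le_mul_of_nonneg_left (min_le_left _ _) hN.le)
        rw [div_le_iff₀' hN]; linarith
      obtain ⟨c', d1, d2, d3⟩ := one_term hd0 hP hL (by positivity) hW hσ hσ1 k1 t (lam j)
      rw [← l1] at d2 d3
      refine ⟨cat c c' (lam j), fun n a1 a2 => ?_, ?_, fun x a1 a2 w hw hx => ?_⟩
      · unfold cat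
        split_ifs with h
        · exact c1 n a1 h
        · exact ⟨(d1 n).1, (d1 n).2.1, (d1 n).2.2.trans (k2.trans (hm a2.le))⟩
      · refine (L1_cat _ _ (l4 j) (l3.monotone (Nat.le_succ j))).trans ?_
        rw [sum_range_succ]
        linarith
      · by_cases h : x < t
        · exact (c3 x a1 h w hw hx).mono le_rfl (l3.monotone (Nat.le_succ j))
            fun _ _ h => if_pos h
        · rw [sum_range_succ, mul_add, ← ht] at a2
          have a3 : N j * (x - t) ≤ π / 16 := by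
            have : x - t ≤ π / 16 * (1 / N j) := by linarith
            rwa [mul_one_div, le_div_iff₀' hN] at this
          have a5 := d3 x (not_lt.1 h) a3 w hw hx
          rw [show 8 * (A + 2) / 8 - 2 = A by ring] at a5
          exact a5.mono (l4 j) le_rfl fun _ h _ => if_neg (by omega)
  obtain ⟨c, c1, c2, c3⟩ := key J
  refine ⟨lam J, c, l0 ▸ l3 (Nat.pos_of_ne_zero ?_), c1, by linarith,
    fun x x1 x2 => c3 x x1 (x2.trans_le (by nlinarith))⟩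
  rintro rfl
  norm_num at j1

theorem glue (Λ : ℕ → ℕ) (l0 : Λ 0 = 1) (l2 : StrictMono Λ) (C : ℕ → ℕ → ℂ)
    (hs : Summable fun k => L1 (C k) (Λ k) (Λ (k + 1))) : ∃ (F : ℝ → ℂ) (c : ℕ → ℂ),
    IntervalIntegrable F volume 0 (2 * π) ∧ c 0 = 0 ∧
    (∀ k n, Λ k ≤ n → n < Λ (k + 1) → c n = C k n) ∧
    (∀ n, n ≠ 0 → ∃ k, Λ k ≤ n ∧ n < Λ (k + 1)) ∧
    (∀ n : ℕ, ∫ x in (0:ℝ)..2 * π, F x * ex (-(n * x)) = ((2 * π : ℝ) : ℂ) * c n) ∧
    (∀ n : ℕ, ∫ x in (0:ℝ)..2 * π, F x * ex (n * x) = 0) := by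
  have l3 : ∀ k, 1 ≤ Λ k := fun k => l0 ▸ l2.monotone (Nat.zero_le k)
  have ex1 : ∀ n, ∃ k, n < Λ (k + 1) := fun n => ⟨n, l2.le_apply⟩
  classical
  set c : ℕ → ℂ := fun n => if n = 0 then 0 else C (Nat.find (ex1 n)) n with hc
  have c1 : ∀ k n, Λ k ≤ n → n < Λ (k + 1) → c n = C k n := by
    intro k n a1 a2
    have : Nat.find (ex1 n) = k := (Nat.find_eq_iff _).2
      ⟨a2, fun j hj => not_lt.2 ((l2.monotone (show j + 1 ≤ k from hj)).trans a1)⟩
    simp only [hc, this]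
    exact if_neg (by have := l3 k; omega)
  have c2 : ∀ n, n ≠ 0 → ∃ k, Λ k ≤ n ∧ n < Λ (k + 1) := fun n hn => by
    refine ⟨Nat.find (ex1 n), ?_, Nat.find_spec (ex1 n)⟩
    rcases h : Nat.find (ex1 n) with _ | j
    · exact l0 ▸ Nat.one_le_iff_ne_zero.2 hn
    · exact not_lt.1 (Nat.find_min (ex1 n) (by omega))
  have c0 : c 0 = 0 := if_pos rfl
  obtain ⟨F, f1, f2⟩ := sum_blocks c Λ (hs.congr fun k => by
    unfold L1; simp only [W_congr (c1 k)])
  simp only [int_W] at f2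
  have f3 : ∀ n : ℕ, ∫ x in (0:ℝ)..2 * π, F x * ex (n * x) = 0 := fun n => by
    have := f2 n
    rw [Int.cast_natCast] at this
    refine this.unique ?_
    have e : ∀ k, ∑ i ∈ Ico (Λ k) (Λ (k + 1)),
        c i * (if (i : ℤ) + n = 0 then ((2 * π : ℝ) : ℂ) else 0) = 0 := fun k =>
      sum_eq_zero fun i hi => by
        have := (l3 k).trans (mem_Ico.1 hi).1
        rw [if_neg (by omega), mul_zero]
    simp only [e]
    exact hasSum_zero
  refine ⟨F, c, f1, c0, c1, c2, fun n => ?_, f3⟩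
  rcases eq_or_ne n 0 with rfl | hn
  · simpa [c0] using f3 0
  · obtain ⟨k, a1, a2⟩ := c2 n hn
    have := f2 (-n)
    simp only [Int.cast_neg, Int.cast_natCast, neg_mul] at this
    refine this.unique ?_
    have e : ∑ i ∈ Ico (Λ k) (Λ (k + 1)),
        c i * (if (i : ℤ) + -n = 0 then ((2 * π : ℝ) : ℂ) else 0) = ((2 * π : ℝ) : ℂ) * c n := by
      rw [sum_eq_single n (fun i _ hi => by rw [if_neg (by omega), mul_zero])
        fun h => absurd (mem_Ico.2 ⟨a1, a2⟩) h, if_pos (by omega), mul_comm]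
    rw [← e]
    refine hasSum_single k fun j hj => sum_eq_zero fun i hi => ?_
    have hi' := mem_Ico.1 hi
    rw [if_neg, mul_zero]
    rcases lt_or_gt_of_ne hj with h | h
    · have := l2.monotone (show j + 1 ≤ k from h); omega
    · have := l2.monotone (show k + 1 ≤ j from h); omega

theorem pos_series {ρ : ℕ → ℝ} (hm : Antitone ρ) (h0 : ∀ n, 0 ≤ ρ n)
    (hd : ¬ Summable fun n => ρ n ^ 2) : ∃ (F : ℝ → ℂ) (c : ℕ → ℂ),
    IntervalIntegrable F volume 0 (2 * π) ∧ (∀ n, Ok (ρ n) (c n)) ∧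
    (∀ n : ℕ, ∫ x in (0:ℝ)..2 * π, F x * ex (-(n * x)) = ((2 * π : ℝ) : ℂ) * c n) ∧
    (∀ n : ℕ, ∫ x in (0:ℝ)..2 * π, F x * ex (n * x) = 0) ∧
    ∀ x : ℝ, 0 ≤ x → x < 2 * π → ∀ w : ℂ, ‖w‖ = 1 → (sin x ≠ 0 ∨ (x = π ∧ w = 1)) →
      ∀ B : ℝ, ∃ a b, 1 ≤ a ∧ a ≤ b ∧ B ≤ |(w * W c a b x).re| := by
  choose nx C b1 b2 b3 b4 using fun (k : ℕ) (Λ : ℕ) => pos_block hm h0 hd (2 ^ k * k)
    (by positivity) (σ := 1 / ((k : ℝ) + 1)) (by positivity)
    ((div_le_one (by positivity)).2 (by simp)) Λ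
  let Λ : ℕ → ℕ := fun k => Nat.rec 1 (fun k l => nx k l) k
  have l2 : StrictMono Λ := strictMono_nat_of_lt_succ fun k => b1 k _
  obtain ⟨F, c, f1, c0, c1, c2, f2, f3⟩ := glue Λ rfl l2
    (fun k n => (((1 / 2) ^ k : ℝ) : ℂ) * C k (Λ k) n)
    (Summable.of_nonneg_of_le (fun k => L1_nonneg _ _ _) (fun k => by
      rw [L1_smul, Complex.norm_real, Real.norm_of_nonneg (by positivity)]
      exact mul_le_mul_of_nonneg_left (b3 k _) (by positivity))
      (summable_geometric_two.mul_right _))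
  refine ⟨F, c, f1, fun n => ?_, f2, f3, fun x x1 x2 w hw hx B => ?_⟩
  · rcases eq_or_ne n 0 with rfl | hn
    · rw [c0]; exact ⟨rfl, le_rfl, h0 0⟩
    · obtain ⟨k, a1, a2⟩ := c2 n hn
      obtain ⟨o1, o2, o3⟩ := b2 k _ n a1 a2
      rw [c1 k n a1 a2, Ok, Complex.im_ofReal_mul, Complex.re_ofReal_mul, o1]
      exact ⟨mul_zero _, by positivity, (mul_le_of_le_one_left o2
        (pow_le_one₀ (by norm_num) (by norm_num))).trans o3⟩
  · have h1 : ∀ᶠ k : ℕ in atTop, 1 / ((k : ℝ) + 1) ≤ |sin x| ∨ (x = π ∧ w = 1) := by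
      rcases hx with h | h
      · exact (tendsto_one_div_add_atTop_nhds_zero_nat.eventually_le_const
          (abs_pos.2 h)).mono fun _ => Or.inl
      · exact Eventually.of_forall fun _ => Or.inr h
    obtain ⟨k, k1, k2⟩ := (h1.and (tendsto_natCast_atTop_atTop.eventually_ge_atTop B)).exists
    obtain ⟨a, b, a1, a2, -, a3⟩ := ((b4 k (Λ k) x x1 x2 w hw k1).smul (u := (1 / 2) ^ k)
      (by positivity)).mono (c' := c) le_rfl le_rfl (c1 k)
    refine ⟨a, b, (l2.monotone (Nat.zero_le k)).trans a1, a2, k2.trans (le_trans (le_of_eq ?_) a3)⟩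
    rw [← mul_assoc, ← mul_pow]; norm_num

theorem pos_form (ρ : ℕ → ℝ) (hm : Antitone ρ) (h0 : ∀ n, 0 ≤ ρ n)
    (hd : ¬ Summable fun n => ρ n ^ 2) :
    ∃ (f g : ℝ → ℝ) (a : ℕ → ℝ),
      IntervalIntegrable f volume 0 (2 * π) ∧ IntervalIntegrable g volume 0 (2 * π) ∧
      (∀ n : ℕ, a n = 1 / π * ∫ x in (0:ℝ)..2 * π, f x * cos (n * x)) ∧
      (∀ n : ℕ, ∫ x in (0:ℝ)..2 * π, f x * sin (n * x) = 0) ∧
      (∀ n : ℕ, ∫ x in (0:ℝ)..2 * π, g x * cos (n * x) = 0) ∧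
      (∀ n : ℕ, a n = 1 / π * ∫ x in (0:ℝ)..2 * π, g x * sin (n * x)) ∧
      (∀ n, 0 ≤ a n ∧ a n ≤ ρ n) ∧
      ∀ x θ : ℝ, (sin x ≠ 0 ∨ θ = 0) → ¬ BddAbove (Set.range fun N : ℕ =>
        |∑ n ∈ Icc 1 N, a n * cos (n * x + θ)|) := by
  obtain ⟨F, c, f1, c1, f2, f3, hw⟩ := pos_series hm h0 hd
  have hπ := pi_pos
  have k := fun n : ℕ => coef f1 (f2 n) (f3 n)
  have key : ∀ x θ : ℝ, 0 ≤ x → x < 2 * π → (sin x ≠ 0 ∨ (x = π ∧ θ = 0)) →
      ¬ BddAbove (Set.range fun N : ℕ => |∑ n ∈ Icc 1 N, (c n).re * cos (n * x + θ)|) := by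
    rintro x θ x1 x2 hx ⟨B, hB⟩
    obtain ⟨a, b, a1, a2, a3⟩ := hw x x1 x2 (ex θ) (norm_ex θ)
      (hx.imp_right fun h => ⟨h.1, by rw [h.2, ex_zero]⟩) (2 * B + 1)
    have h : ∀ N, 1 ≤ N → |(ex θ * W c 1 N x).re| ≤ B := fun N hN => by
      obtain ⟨M, rfl⟩ : ∃ M, N = M + 1 := ⟨N - 1, by omega⟩
      rw [re_W]
      simpa only [(c1 _).1, neg_zero, zero_mul, add_zero] using hB ⟨M, rfl⟩
    have h1 := abs_le.1 (h a a1)
    have h2 := abs_le.1 (h b (a1.trans a2))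
    rw [W_add c a1 a2, mul_add, Complex.add_re] at h2
    rcases le_abs.1 a3 with h3 | h3 <;> linarith [h1.1, h1.2, h2.1, h2.2]
  refine ⟨fun x => (F x).re, fun x => (F x).im, fun n => (c n).re,
    ⟨f1.1.re, f1.2.re⟩, ⟨f1.1.im, f1.2.im⟩, fun n => ?_, fun n => ?_, fun n => ?_, fun n => ?_,
    fun n => (c1 n).2, fun x θ hx => ?_⟩
  · rw [(k n).1]; field_simp
  · rw [(k n).2.1, (c1 n).1]; simp
  · rw [(k n).2.2.1, (c1 n).1]; simp
  · rw [(k n).2.2.2]; field_simp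
  · have hp : Function.Periodic (fun x => (sin x ≠ 0 ∨ θ = 0) → ¬ BddAbove (Set.range fun N : ℕ =>
        |∑ n ∈ Icc 1 N, (c n).re * cos (n * x + θ)|)) (2 * π) := fun x => by
      have : ∀ n : ℕ, cos (n * (x + 2 * π) + θ) = cos (n * x + θ) := fun n => by
        rw [← cos_add_nat_mul_two_pi (n * x + θ) n]; congr 1; ring
      simp only [this, sin_add_two_pi]
    obtain ⟨y, hy, e⟩ := hp.exists_mem_Ico₀ (by positivity) x
    refine e.mpr (fun h => ?_) hx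
    by_cases h1 : sin y = 0
    · obtain rfl := h.resolve_left fun h => h h1
      rintro ⟨B, hB⟩
      rcases lt_trichotomy y π with h2 | h2 | h2
      · have h3 : y = 0 := by
          by_contra h4
          exact (sin_pos_of_pos_of_lt_pi (lt_of_le_of_ne hy.1 (Ne.symm h4)) h2).ne' h1
        refine key π 0 hπ.le (by linarith) (Or.inr ⟨rfl, rfl⟩) ⟨B, ?_⟩
        rintro _ ⟨N, rfl⟩
        refine le_trans ((abs_sum_le_sum_abs _ _).trans ?_) ((le_abs_self _).trans (hB ⟨N, rfl⟩))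
        refine sum_le_sum fun n _ => ?_
        rw [h3, mul_zero, add_zero (0 : ℝ), cos_zero, abs_mul, abs_of_nonneg (c1 n).2.1]
        exact mul_le_mul_of_nonneg_left (abs_cos_le_one _) (c1 n).2.1
      · exact key y 0 hy.1 hy.2 (Or.inr ⟨h2, rfl⟩) ⟨B, hB⟩
      · have := sin_pos_of_pos_of_lt_pi (x := y - π) (by linarith) (by linarith [hy.2])
        rw [sin_sub_pi, h1] at this
        simp at this
    · exact key y θ hy.1 hy.2 (Or.inl h1)

end Pool.Agent.Lib.MP_85199e_an
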