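import Pool.Agent.Lib.MP_85199e_an.Sum

/-!
# The real form
-/

namespace Pool.Agent.Lib.MP_85199e_an

open Finset Real Filter MeasureTheory

theorem ex_eq (x : ℝ) : ex x = (cos x : ℝ) + (sin x : ℝ) * Complex.I := by
  rw [← ex_re, ← ex_im, Complex.re_add_im]

theorem coef {F : ℝ → ℂ} (hF : IntervalIntegrable F volume 0 (2 * π)) {c : ℂ} {t : ℝ}
    (h1 : ∫ x in (0:ℝ)..2 * π, F x * ex (-(t * x)) = ((2 * π : ℝ) : ℂ) * c)
    (h2 : ∫ x in (0:ℝ)..2 * π, F x * ex (t * x) = 0) :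
    ∫ x in (0:ℝ)..2 * π, (F x).re * cos (t * x) = π * c.re ∧
    ∫ x in (0:ℝ)..2 * π, (F x).re * sin (t * x) = π * -c.im ∧
    ∫ x in (0:ℝ)..2 * π, (F x).im * cos (t * x) = π * c.im ∧
    ∫ x in (0:ℝ)..2 * π, (F x).im * sin (t * x) = π * c.re := by
  have i1 : IntervalIntegrable (fun x => F x * (cos (t * x) : ℝ)) volume 0 (2 * π) :=
    hF.mul_continuousOn (by fun_prop)
  have i2 : IntervalIntegrable (fun x => F x * (sin (t * x) : ℝ)) volume 0 (2 * π) :=
    hF.mul_continuousOn (by fun_prop)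
  set U := ∫ x in (0:ℝ)..2 * π, F x * (cos (t * x) : ℝ) with hU
  set V := ∫ x in (0:ℝ)..2 * π, F x * (sin (t * x) : ℝ) with hV
  have e1 : U - V * Complex.I = ((2 * π : ℝ) : ℂ) * c := by
    rw [← h1, hU, hV, ← intervalIntegral.integral_mul_const,
      ← intervalIntegral.integral_sub i1 (i2.mul_const _)]
    refine intervalIntegral.integral_congr fun x _ => ?_
    simp only [ex_eq, cos_neg, sin_neg, Complex.ofReal_neg]; ring
  have e2 : U + V * Complex.I = 0 := by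
    rw [← h2, hU, hV, ← intervalIntegral.integral_mul_const,
      ← intervalIntegral.integral_add i1 (i2.mul_const _)]
    refine intervalIntegral.integral_congr fun x _ => ?_
    simp only [ex_eq]; ring
  have r1 := Complex.reCLM.intervalIntegral_comp_comm i1
  have r2 := Complex.reCLM.intervalIntegral_comp_comm i2
  have r3 := Complex.imCLM.intervalIntegral_comp_comm i1
  have r4 := Complex.imCLM.intervalIntegral_comp_comm i2
  simp only [Complex.reCLM_apply, Complex.imCLM_apply, Complex.re_mul_ofReal,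
    Complex.im_mul_ofReal, ← hU, ← hV] at r1 r2 r3 r4
  have a1 := congrArg Complex.re e1
  have a2 := congrArg Complex.im e1
  have a3 := congrArg Complex.re e2
  have a4 := congrArg Complex.im e2
  simp only [Complex.sub_re, Complex.sub_im, Complex.add_re, Complex.add_im, Complex.mul_I_re,
    Complex.mul_I_im, Complex.re_ofReal_mul, Complex.im_ofReal_mul, Complex.zero_re,
    Complex.zero_im] at a1 a2 a3 a4
  rw [r1, r2, r3, r4]
  refine ⟨?_, ?_, ?_, ?_⟩ <;> linarith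

theorem re_W (c : ℕ → ℂ) (N : ℕ) (x θ : ℝ) : (ex θ * W c 1 (N + 1) x).re
    = ∑ n ∈ Icc 1 N, ((c n).re * cos (n * x + θ) + -(c n).im * sin (n * x + θ)) := by
  unfold W
  rw [mul_sum, Complex.re_sum, Ico_add_one_right_eq_Icc]
  refine sum_congr rfl fun n _ => ?_
  rw [mul_left_comm, mul_comm (ex θ), ← ex_add, Complex.mul_re, ex_re, ex_im]; ring

theorem real_form (ρ : ℕ → ℝ) (hm : Antitone ρ) (h0 : ∀ n, 0 ≤ ρ n)
    (hd : ¬ Summable fun n => ρ n ^ 2) :
    ∃ (f g : ℝ → ℝ) (a b : ℕ → ℝ),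
      IntervalIntegrable f volume 0 (2 * π) ∧ IntervalIntegrable g volume 0 (2 * π) ∧
      (∀ n : ℕ, a n = 1 / π * ∫ x in (0:ℝ)..2 * π, f x * cos (n * x)) ∧
      (∀ n : ℕ, b n = 1 / π * ∫ x in (0:ℝ)..2 * π, f x * sin (n * x)) ∧
      (∀ n : ℕ, -b n = 1 / π * ∫ x in (0:ℝ)..2 * π, g x * cos (n * x)) ∧
      (∀ n : ℕ, a n = 1 / π * ∫ x in (0:ℝ)..2 * π, g x * sin (n * x)) ∧
      a 0 = 0 ∧ (∀ n, a n ^ 2 + b n ^ 2 ≤ ρ n ^ 2) ∧
      ∀ x θ : ℝ, ¬ BddAbove (Set.range fun N : ℕ =>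
        |∑ n ∈ Icc 1 N, (a n * cos (n * x + θ) + b n * sin (n * x + θ))|) := by
  obtain ⟨F, c, f1, c0, c1, f2, f3, hw⟩ := exists_series hm h0 hd
  have hπ := pi_pos
  have k := fun n : ℕ => coef f1 (f2 n) (f3 n)
  refine ⟨fun x => (F x).re, fun x => (F x).im, fun n => (c n).re, fun n => -(c n).im,
    ⟨f1.1.re, f1.2.re⟩, ⟨f1.1.im, f1.2.im⟩, fun n => ?_, fun n => ?_, fun n => ?_, fun n => ?_,
    by simp [c0], fun n => ?_, fun x θ ⟨B, hB⟩ => ?_⟩
  · rw [(k n).1]; field_simp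
  · rw [(k n).2.1]; field_simp
  · rw [(k n).2.2.1]; field_simp
  · rw [(k n).2.2.2]; field_simp
  · have := pow_le_pow_left₀ (norm_nonneg _) (c1 n) 2
    rw [← Complex.normSq_eq_norm_sq, Complex.normSq_apply] at this
    linarith
  · obtain ⟨a, b, a1, a2, a3⟩ := hw x (ex θ) (norm_ex θ) (2 * B + 1)
    have h : ∀ N, 1 ≤ N → |(ex θ * W c 1 N x).re| ≤ B := fun N hN => by
      obtain ⟨M, rfl⟩ : ∃ M, N = M + 1 := ⟨N - 1, by omega⟩
      rw [re_W]
      exact hB ⟨M, rfl⟩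
    have h1 := abs_le.1 (h a a1)
    have h2 := abs_le.1 (h b (a1.trans a2))
    rw [W_add c a1 a2, mul_add, Complex.add_re] at h2
    have := le_abs.1 a3
    rcases this with h3 | h3 <;> linarith [h1.1, h1.2, h2.1, h2.2]

end Pool.Agent.Lib.MP_85199e_an
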