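import Pool.Agent.Lib.MP_85199e_an.Greedy

/-!
# Summing the blocks
-/

namespace Pool.Agent.Lib.MP_85199e_an

open Finset Real Filter MeasureTheory

theorem int_ex (m : ℤ) :
    ∫ x in (0:ℝ)..2 * π, ex (m * x) = if m = 0 then ((2 * π : ℝ) : ℂ) else 0 := by
  split_ifs with h
  · simp [h, ex_zero]
  · have h1 : (m : ℂ) * Complex.I ≠ 0 := mul_ne_zero (by exact_mod_cast h) Complex.I_ne_zero
    have h2 : ∀ x : ℝ, ex (m * x) = Complex.exp (m * Complex.I * x) := fun x => by
      unfold ex; congr 1; push_cast; ring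
    simp only [h2]
    rw [integral_exp_mul_complex h1, ← h2, ← h2, ex_int, mul_zero, ex_zero, sub_self, zero_div]

theorem int_W (c : ℕ → ℂ) (a b : ℕ) (m : ℤ) : ∫ x in (0:ℝ)..2 * π, W c a b x * ex (m * x)
    = ∑ n ∈ Ico a b, c n * if (n : ℤ) + m = 0 then ((2 * π : ℝ) : ℂ) else 0 := by
  unfold W
  simp only [sum_mul]
  rw [intervalIntegral.integral_finsetSum fun r _ => Continuous.intervalIntegrable
      (by fun_prop) _ _]
  refine sum_congr rfl fun n _ => ?_
  rw [← int_ex, ← intervalIntegral.integral_const_mul]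
  refine intervalIntegral.integral_congr fun x _ => ?_
  simp only [mul_assoc, ← ex_add]
  congr 2; push_cast; ring

theorem sum_blocks (c : ℕ → ℂ) (Λ : ℕ → ℕ) (hs : Summable fun k => L1 c (Λ k) (Λ (k + 1))) :
    ∃ F : ℝ → ℂ, IntervalIntegrable F volume 0 (2 * π) ∧ ∀ m : ℤ,
      HasSum (fun k => ∫ x in (0:ℝ)..2 * π, W c (Λ k) (Λ (k + 1)) x * ex (m * x))
        (∫ x in (0:ℝ)..2 * π, F x * ex (m * x)) := by
  have h2 : (0 : ℝ) ≤ 2 * π := by positivity
  have hi : ∀ {g : ℝ → ℂ}, Continuous g → Integrable g (volume.restrict (Set.Ioc 0 (2 * π))) :=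
    fun hg => (hg.intervalIntegrable 0 (2 * π)).1
  refine ⟨fun x => ∑' k, W c (Λ k) (Λ (k + 1)) x, ?_, fun m => ?_⟩
  · rw [intervalIntegrable_iff_integrableOn_Ioc_of_le h2]
    refine ⟨(Measurable.tsum fun k => (continuous_W _ _ _).measurable).aestronglyMeasurable, ?_⟩
    rw [hasFiniteIntegral_iff_enorm]
    refine (lintegral_mono fun x => enorm_tsum_le_tsum_enorm).trans_lt ?_
    rw [lintegral_tsum fun k => (continuous_W _ _ _).measurable.enorm.aemeasurable]
    simp only [← ofReal_integral_norm_eq_lintegral_enorm (hi (continuous_W _ _ _)),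
      ← intervalIntegral.integral_of_le h2]
    exact (ENNReal.ofReal_tsum_of_nonneg (fun k => L1_nonneg c _ _) hs).symm.trans_lt
      ENNReal.ofReal_lt_top
  · simp only [intervalIntegral.integral_of_le h2, ← tsum_mul_right]
    refine hasSum_integral_of_summable_integral_norm (fun k => hi (by fun_prop)) ?_
    simp only [norm_mul, norm_ex, mul_one, ← intervalIntegral.integral_of_le h2]
    exact hs

theorem exists_series {ρ : ℕ → ℝ} (hm : Antitone ρ) (h0 : ∀ n, 0 ≤ ρ n)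
    (hd : ¬ Summable fun n => ρ n ^ 2) : ∃ (F : ℝ → ℂ) (c : ℕ → ℂ),
    IntervalIntegrable F volume 0 (2 * π) ∧ c 0 = 0 ∧ (∀ n, ‖c n‖ ≤ ρ n) ∧
    (∀ n : ℕ, ∫ x in (0:ℝ)..2 * π, F x * ex (-(n * x)) = ((2 * π : ℝ) : ℂ) * c n) ∧
    (∀ n : ℕ, ∫ x in (0:ℝ)..2 * π, F x * ex (n * x) = 0) ∧
    ∀ (x : ℝ) (w : ℂ), ‖w‖ = 1 → ∀ B : ℝ, ∃ a b, 1 ≤ a ∧ a ≤ b ∧ B ≤ |(w * W c a b x).re| := by
  have hd' : ¬ Summable fun n => min (ρ n) 1 ^ 2 := fun h => by
    have h1 := h.tendsto_atTop_zero.eventually_lt_const one_pos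
    refine hd (h.congr_atTop (h1.mono fun n hn => ?_))
    rcases le_total (ρ n) 1 with h2 | h2
    · simp only [min_eq_left h2]
    · simp [min_eq_right h2] at hn
  choose nx C b1 b2 b3 b4 using fun (k : ℕ) (Λ : ℕ) => exists_block (ρ := fun n => min (ρ n) 1)
    (fun a b h => min_le_min_right _ (hm h)) (fun n => le_min (h0 n) zero_le_one)
    (fun n => min_le_right _ _) hd' (2 ^ k * k) (by positivity) Λ
  let Λ : ℕ → ℕ := fun k => Nat.rec 1 (fun k l => nx k l) k
  have l1 : ∀ k, Λ (k + 1) = nx k (Λ k) := fun _ => rfl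
  have l2 : StrictMono Λ := strictMono_nat_of_lt_succ fun k => b1 k _
  have l3 : ∀ k, 1 ≤ Λ k := fun k => l2.monotone (Nat.zero_le k)
  have ex1 : ∀ n, ∃ k, n < Λ (k + 1) := fun n => ⟨n, l2.le_apply⟩
  classical
  set c : ℕ → ℂ := fun n => if n = 0 then 0 else
    (((1 / 2) ^ Nat.find (ex1 n) : ℝ) : ℂ) * C (Nat.find (ex1 n)) (Λ (Nat.find (ex1 n))) n with hc
  have c1 : ∀ k n, Λ k ≤ n → n < Λ (k + 1) → c n = (((1 / 2) ^ k : ℝ) : ℂ) * C k (Λ k) n := by
    intro k n a1 a2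
    have : Nat.find (ex1 n) = k := (Nat.find_eq_iff _).2
      ⟨a2, fun j hj => not_lt.2 ((l2.monotone (show j + 1 ≤ k from hj)).trans a1)⟩
    simp only [hc, this]
    exact if_neg (by have := l3 k; omega)
  have c2 : ∀ n, n ≠ 0 → ∃ k, Λ k ≤ n ∧ n < Λ (k + 1) := fun n hn => by
    refine ⟨Nat.find (ex1 n), ?_, Nat.find_spec (ex1 n)⟩
    rcases h : Nat.find (ex1 n) with _ | j
    · exact Nat.one_le_iff_ne_zero.2 hn
    · exact not_lt.1 (Nat.find_min (ex1 n) (by omega))
  have c0 : c 0 = 0 := if_pos rfl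
  have c3 : ∀ k, L1 c (Λ k) (Λ (k + 1)) ≤ 198 * (1 / 2) ^ k := fun k => by
    have : L1 c (Λ k) (Λ (k + 1))
        = L1 (fun n => (((1 / 2) ^ k : ℝ) : ℂ) * C k (Λ k) n) (Λ k) (Λ (k + 1)) := by
      unfold L1; simp only [W_congr (c1 k)]
    rw [this, L1_smul, Complex.norm_real, Real.norm_of_nonneg (by positivity), mul_comm]
    exact mul_le_mul_of_nonneg_right (b3 k _) (by positivity)
  obtain ⟨F, f1, f2⟩ := sum_blocks c Λ (Summable.of_nonneg_of_le (fun k => L1_nonneg _ _ _) c3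
    (summable_geometric_two.mul_left _))
  simp only [int_W] at f2
  have f3 : ∀ n : ℕ, ∫ x in (0:ℝ)..2 * π, F x * ex (n * x) = 0 := fun n => by
    have := f2 n
    rw [Int.cast_natCast] at this
    refine this.unique ?_
    have e : ∀ k, ∑ i ∈ Ico (Λ k) (Λ (k + 1)),
        c i * (if (i : ℤ) + n = 0 then ((2 * π : ℝ) : ℂ) else 0) = 0 := fun k =>
      sum_eq_zero fun i hi => by
        have := (l3 k).trans (mem_Ico.1 hi).1
        rw [if_neg (by omega), mul_zero]
    simp only [e]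
    exact hasSum_zero
  refine ⟨F, c, f1, c0, fun n => ?_, fun n => ?_, f3, fun x w hw B => ?_⟩
  · rcases eq_or_ne n 0 with rfl | hn
    · simpa [c0] using h0 0
    · obtain ⟨k, a1, a2⟩ := c2 n hn
      rw [c1 k n a1 a2, norm_mul, Complex.norm_real, Real.norm_of_nonneg (by positivity)]
      exact (mul_le_of_le_one_left (norm_nonneg _)
        (pow_le_one₀ (by norm_num) (by norm_num))).trans ((b2 k _ n a1 a2).trans (min_le_left _ _))
  · rcases eq_or_ne n 0 with rfl | hn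
    · simpa [c0] using f3 0
    · obtain ⟨k, a1, a2⟩ := c2 n hn
      have := f2 (-n)
      simp only [Int.cast_neg, Int.cast_natCast, neg_mul] at this
      refine this.unique ?_
      have e : ∑ i ∈ Ico (Λ k) (Λ (k + 1)),
          c i * (if (i : ℤ) + -n = 0 then ((2 * π : ℝ) : ℂ) else 0) = ((2 * π : ℝ) : ℂ) * c n := by
        rw [sum_eq_single n (fun i _ hi => by rw [if_neg (by omega), mul_zero])
          fun h => absurd (mem_Ico.2 ⟨a1, a2⟩) h, if_pos (by omega), mul_comm]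
      rw [← e]
      refine hasSum_single k fun j hj => sum_eq_zero fun i hi => ?_
      have hi' := mem_Ico.1 hi
      rw [if_neg, mul_zero]
      rcases lt_or_gt_of_ne hj with h | h
      · have := l2.monotone (show j + 1 ≤ k from h); omega
      · have := l2.monotone (show k + 1 ≤ j from h); omega
  · obtain ⟨k, hk⟩ := exists_nat_ge B
    have h1 := ((b4 k (Λ k) x).smul (u := (1 / 2) ^ k) (by positivity)).mono (c' := c) le_rfl le_rfl
      (c1 k)
    obtain ⟨a, b, a1, a2, -, a3⟩ := h1 w hw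
    refine ⟨a, b, (l3 k).trans a1, a2, hk.trans (le_trans (le_of_eq ?_) a3)⟩
    rw [← mul_assoc, ← mul_pow]; norm_num

end Pool.Agent.Lib.MP_85199e_an
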